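import Pool.Agent.GSV.Chain

/-!
# GTEX: a chain of quaternion algebras

`chain_i`: `(-δ, n₀ m₀) ~ (-δ, n₀ η) ~ (n₀ η, -δ m ^ 2) ~ (n₀ η, z) ~ (q, z) ~ (q, c)` if
`m₀ η + λ ^ 2 + δ β ^ 2 = 0`, `-1` is a square, `-δ m ^ 2 z` is a norm from `F(√(n₀ η))`,
`z = u ^ 2 - n₀ η q` and `c z` is a norm from `F(√q)`.
-/

set_option autoImplicit false

noncomputable section

namespace Pool.Agent.GSV.Quat

open scoped Quaternion

variable {F : Type*} [Field F]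

theorem chain_i (h2 : (2 : F) ≠ 0) {i δ n₀ m₀ η l β m q c u v y r w : F} (hi : i ^ 2 = -1)
    (hδ : δ ≠ 0) (hn : n₀ ≠ 0) (hm₀ : m₀ ≠ 0) (hη : η ≠ 0) (hm : m ≠ 0) (hq : q ≠ 0) (hc : c ≠ 0)
    (hz : u * u - n₀ * η * q ≠ 0) (e1 : m₀ * η + l * l + δ * (β * β) = 0)
    (e2 : -δ * (m * m) * (u * u - n₀ * η * q) = v * v - n₀ * η * (y * y))
    (e3 : c * (u * u - n₀ * η * q) = r * r - q * (w * w)) :
    Nonempty (ℍ[F, -δ, n₀ * m₀] ≃ₐ[F] ℍ[F, q, c]) := by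
  have h1 : Nonempty (ℍ[F, -δ, n₀ * m₀] ≃ₐ[F] ℍ[F, -δ, n₀ * η]) := by
    refine Pool.Agent.GSK.Quat.norm (x := i * l / η) (y := i * β / η) (mul_ne_zero hn hm₀) ?_
    field_simp
    linear_combination e1 - (l ^ 2 + δ * β ^ 2) * hi
  have h3 : Nonempty (ℍ[F, n₀ * η, -δ * (m * m)] ≃ₐ[F] ℍ[F, n₀ * η, -δ]) :=
    Pool.Agent.GSK.Quat.norm (x := m) (y := 0)
      (mul_ne_zero (neg_ne_zero.2 hδ) (mul_ne_zero hm hm)) (by ring)
  have h4 : Nonempty (ℍ[F, n₀ * η, -δ * (m * m)] ≃ₐ[F] ℍ[F, q, c]) :=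
    chain h2 (z := u * u - n₀ * η * q) (u := u) (x := v) (y := y) (r := r) (w := w)
      (mul_ne_zero hn hη) (mul_ne_zero (neg_ne_zero.2 hδ) (mul_ne_zero hm hm)) hz hq hc
      (by linear_combination e2) (by ring) (by linear_combination e3)
  exact trans' h1 (trans' (Pool.Agent.GSK.Quat.swap _ _) (trans' (symm' h3) h4))

end Pool.Agent.GSV.Quat
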