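import Pool.Agent.GTEX.Final

/-!
# GTEX: an explicit type E datum in general position

Let `i ^ 2 = -1`, `ε ^ 2 = 1`. With `w₁, w₋₁ = (0, 0, 0, 1, ± i)`, `w₂, w₋₂ = (1, -1, ± i, 0, 0)` the datum
`ED i ε` is: `h = diag (1, 1, -2)`, `e = (w₁ + w₋₁ + w₂, w₋₁, w₂)`, `f = (w₁ + w₋₁ + w₋₂, w₁, w₋₂)`,
`Φ (w₋₁, w₁) = 4 ε`, `Φ (w₂, w₋₂) = -6 ε`, and `Φ = 0` for the other pairs. If `e` and `f` are
exchanged, it becomes `ED (-i) (-ε)`. `ED_DE`: the 17 polynomials do not vanish.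
-/

set_option autoImplicit false

noncomputable section

namespace Pool.Agent.GTEX

open MvPolynomial Matrix Pool.Agent.TK Pool.Agent.GTE

/-- The datum. -/
def ED {R : Type} [CommRing R] (i ε : R) : EDat R where
  h := ![1, 1]
  e := ![![1, -1, i, 2, 0], ![0, 0, 0, 1, -i], ![1, -1, i, 0, 0]]
  f := ![![1, -1, -i, 2, 0], ![0, 0, 0, 1, i], ![1, -1, -i, 0, 0]]
  p := ![![-2 * ε, 4 * ε, -6 * ε], ![4 * ε, 4 * ε, 0], ![-6 * ε, 0, -6 * ε]]
  r := ![0, 0, 0]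
  s := ![0, 0, 0]

theorem ED_swap {R : Type} [CommRing R] (i ε : R) : (ED i ε).swap = ED (-i) (-ε) := by
  unfold EDat.swap ED
  congr 1
  · funext a b
    fin_cases a <;> fin_cases b <;> simp
  · funext a b
    fin_cases a <;> fin_cases b <;> simp
  · funext a b
    fin_cases a <;> fin_cases b <;> simp
  · funext a
    fin_cases a <;> simp
  · funext a
    fin_cases a <;> simp

theorem ED_map {R R' : Type} [CommRing R] [CommRing R'] (φ : R →+* R') (i ε : R) :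
    (ED i ε).map φ = ED (φ i) (φ ε) := by
  unfold EDat.map ED
  congr 1
  · funext a
    fin_cases a <;> simp
  · funext a b
    fin_cases a <;> fin_cases b <;> simp [map_ofNat φ]
  · funext a b
    fin_cases a <;> fin_cases b <;> simp [map_ofNat φ]
  · funext a b
    fin_cases a <;> fin_cases b <;> simp [map_ofNat φ]
  · funext a
    fin_cases a <;> simp
  · funext a
    fin_cases a <;> simp

section

variable {i ε : ℂ} (hi : i ^ 2 = -1) (hε : ε ^ 2 = 1)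

theorem ED_hM : (ED i ε).hM = !![1, 0, 0; 0, 1, 0; 0, 0, -2] := by
  ext a b
  fin_cases a <;> fin_cases b <;> simp [EDat.hM, ED, sym]
  norm_num

theorem ED_aM : (ED i ε).aM 0 = !![1, i, 2; i, -1, 0; 2, 0, 0] := by
  ext a b
  fin_cases a <;> fin_cases b <;> simp [EDat.aM, ED, sym]

theorem ED_bM : (ED i ε).bM 0 = !![1, -i, 2; -i, -1, 0; 2, 0, 0] := by
  ext a b
  fin_cases a <;> fin_cases b <;> simp [EDat.bM, EDat.swap, EDat.aM, ED, sym]

theorem ED_f0 : (ED i ε).fM 0 = !![1, -i, 2; -i, -1, 0; 2, 0, 0] := by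
  ext a b
  fin_cases a <;> fin_cases b <;> simp [EDat.fM, ED, sym]

theorem ED_f1 : (ED i ε).fM 1 = !![0, 0, 1; 0, 0, i; 1, i, 0] := by
  ext a b
  fin_cases a <;> fin_cases b <;> simp [EDat.fM, ED, sym]

theorem ED_f2 : (ED i ε).fM 2 = !![1, -i, 0; -i, -1, 0; 0, 0, 0] := by
  ext a b
  fin_cases a <;> fin_cases b <;> simp [EDat.fM, ED, sym]

theorem ED_e0 : sym ((ED i ε).e 0) = !![1, i, 2; i, -1, 0; 2, 0, 0] := by
  ext a b
  fin_cases a <;> fin_cases b <;> simp [ED, sym]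

theorem ED_e1 : sym ((ED i ε).e 1) = !![0, 0, 1; 0, 0, -i; 1, -i, 0] := by
  ext a b
  fin_cases a <;> fin_cases b <;> simp [ED, sym]

theorem ED_sys : (ED i ε).sysM 0 = !![3, 3, 0, 0, 0; 1, -1, -2 * i, 4, 0; 0, 0, 0, 2, 2 * i;
    1, -1, -2 * i, 0, 0; 1, -1, 2 * i, 4, 0] := by
  ext a b
  fin_cases a <;> fin_cases b <;> simp [EDat.sysM, EDat.h5, EDat.a5, GTE.row, ED] <;> norm_num

include hi in
theorem ED_d : (ED i ε).gd 0 ≠ 0 := by
  have h2 : (ED i ε).sysM 0 * !![32, -48, 0, 96, 48; 32, 48, 0, -96, -48;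
      0, 48 * i, 0, 0, -48 * i; 0, 48, 0, -48, 0; 0, 48 * i, -96 * i, -48 * i, 0] =
        (192 : ℂ) • 1 := by
    rw [ED_sys]
    ext a b
    fin_cases a <;> fin_cases b <;> simp [Matrix.mul_apply, Fin.sum_univ_five] <;> norm_num <;>
      ring_nf <;> simp [hi] <;> norm_num
  intro h0
  have h3 := congrArg Matrix.det h2
  rw [Matrix.det_mul, show ((ED i ε).sysM 0).det = 0 from h0, zero_mul, Matrix.det_smul,
    Matrix.det_one] at h3
  norm_num at h3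

include hi in
theorem ED_kf0 : kf (ED i ε).hM (sym ((ED i ε).e 0)) (ED i ε).hM (sym ((ED i ε).e 0)) = 96 := by
  rw [ED_hM, ED_e0]
  simp [kf, dot, Matrix.trace_fin_three]
  ring_nf
  rw [hi]
  norm_num

include hi in
theorem ED_kf1 : kf (ED i ε).hM (sym ((ED i ε).e 1)) (ED i ε).hM (sym ((ED i ε).e 1)) = 0 := by
  rw [ED_hM, ED_e1]
  simp [kf, dot, Matrix.trace_fin_three]
  ring_nf
  rw [hi]
  norm_num

theorem ED_kf2 : kf (ED i ε).hM (sym ((ED i ε).e 0)) (ED i ε).hM (sym ((ED i ε).e 1)) = 48 := by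
  rw [ED_hM, ED_e0, ED_e1]
  simp [kf, dot, Matrix.trace_fin_three]
  ring_nf

include hi in
theorem ED_k : (ED i ε).gk 0 = 96 := by
  unfold EDat.gk
  rw [ED_aM, ← ED_e0 (i := i) (ε := ε)]
  exact ED_kf0 hi

include hi in
theorem ED_s : (ED i ε).gs ≠ 0 := by
  unfold EDat.gs
  rw [ED_kf0 hi, ED_kf1 hi, ED_kf2]
  simp [ED]

include hi in
theorem ED_n : (ED i ε).gn 0 ≠ 0 := by
  have h1 : (Matrix.of fun j k => alt (ED i ε).hM ((ED i ε).aM 0) ((ED i ε).fM j) k :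
      Matrix (Fin 3) (Fin 3) ℂ) = !![8 * i, 0, 4 * i; 0, 0, -8 * i; 4 * i, 4, 4 * i] := by
    ext j k
    fin_cases j
    · change alt (ED i ε).hM ((ED i ε).aM 0) ((ED i ε).fM 0) k = _
      rw [ED_hM, ED_aM, ED_f0]
      fin_cases k <;> simp [alt, GTE.vec] <;> ring
    · change alt (ED i ε).hM ((ED i ε).aM 0) ((ED i ε).fM 1) k = _
      rw [ED_hM, ED_aM, ED_f1]
      fin_cases k <;> simp [alt, GTE.vec] <;> ring_nf <;> simp [hi]
    · change alt (ED i ε).hM ((ED i ε).aM 0) ((ED i ε).fM 2) k = _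
      rw [ED_hM, ED_aM, ED_f2]
      fin_cases k
      · simp [alt, GTE.vec]
        ring_nf
        simp
      · simp [alt, GTE.vec]
        ring
      · simp [alt, GTE.vec]
        ring
  unfold EDat.gn
  rw [h1]
  simp [Matrix.det_fin_three]
  rintro rfl
  norm_num at hi

include hi in
theorem ED_K : (ED i ε).gK 0 ≠ 0 := by
  have h0 : (![(0 : Fin 4 → ℂ) 0, (0 : Fin 4 → ℂ) 1] : Fin 2 → ℂ) = 0 := by
    funext i
    fin_cases i <;> rfl
  have h0' : (![(0 : Fin 4 → ℂ) 2, (0 : Fin 4 → ℂ) 3] : Fin 2 → ℂ) = 0 := by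
    funext i
    fin_cases i <;> rfl
  have h1 : KM (ED i ε).hM ((ED i ε).aM 0) ((ED i ε).bM 0) =
      !![-48, 0, 0; 0, 96, -72; 0, -72, 96] := by
    rw [ED_hM, ED_aM, ED_bM]
    ext a b
    fin_cases a <;> fin_cases b <;>
      simp [KM, kf, dot, Matrix.trace_fin_three] <;> ring_nf <;> simp [hi] <;>
      norm_num
  unfold EDat.gK
  rw [h0, h0', h1]
  simp [Matrix.det_fin_three]
  norm_num

include hi in
theorem ED_sol : (ED i ε).Sol 0 0 ![-5 / 2 * ε, 5 / 2 * ε, -1 / 2 * (i * ε), ε, -(i * ε)] := by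
  refine EDat.sol_of_sys ?_ ?_
  · rw [Matrix.mulVec_zero]
    funext k
    fin_cases k <;> simp [EDat.rhm, EDat.ah, ED]
  · rw [ED_sys]
    funext k
    fin_cases k <;> simp [Matrix.mulVec, dotProduct, Fin.sum_univ_five, EDat.rhg, EDat.ah,
      EDat.af, ED] <;> ring_nf <;> simp [hi] <;> ring

include hi in
theorem ED_mt : (ED i ε).mt 0 = 0 := by
  rw [(ED_sol hi).mt_eq]
  funext k
  simp

theorem tri0 (x y : Matrix (Fin 3) (Fin 3) ℂ) : tri (sym (0 : Fin 5 → ℂ)) x y = 0 := by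
  have h3 : sym (0 : Fin 5 → ℂ) = 0 := by
    ext i j
    fin_cases i <;> fin_cases j <;> simp [sym]
  rw [h3]
  funext k
  fin_cases k <;> simp [tri, GTE.vec]

theorem ED_s3 (hi : i ^ 2 = -1) : tri (sym (![-5 / 2 * ε, 5 / 2 * ε, -1 / 2 * (i * ε), ε, -(i * ε)] : Fin 5 → ℂ))
    (ED i ε).hM ((ED i ε).aM 0) = ![0, -16 * ε, 8 * (i * ε)] := by
  rw [ED_hM, ED_aM]
  funext k
  fin_cases k <;> simp [tri, GTE.vec, sym] <;> ring_nf <;> simp [hi] <;> ring

include hi in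
theorem ED_dd : (ED i ε).d 0 = 96 := by
  have h4 : (ED i ε).d 0 = (ED i ε).gk 0 + (ED i ε).ah 0 ^ 2 := rfl
  rw [h4, ED_k hi]
  simp [EDat.ah, ED]

include hi in
theorem ED_gt : tri (sym ((ED i ε).gt 0)) (ED i ε).hM ((ED i ε).aM 0) =
    fun j => ((ED i ε).sysM 0).det * (![0, -16 * ε, 8 * (i * ε)] : Fin 3 → ℂ) j := by
  rw [(ED_sol hi).gt_eq, tri_smul, ED_s3 hi]

include hi hε in
theorem ED_c : (ED i ε).gc 0 ≠ 0 := by
  unfold EDat.gc
  rw [ED_gt hi, ED_dd hi, ED_aM]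
  have h5 : ((ED i ε).sysM 0).det ≠ 0 := ED_d hi
  have h6 : ((ED i ε).sysM 0).det ^ 2 * (96 * (!![1, i, 2; i, -1, 0; 2, 0, 0] 0 0 *
      !![1, i, 2; i, -1, 0; 2, 0, 0] 1 1 - !![1, i, 2; i, -1, 0; 2, 0, 0] 0 1 ^ 2)) +
      (((ED i ε).sysM 0).det * (![0, -16 * ε, 8 * (i * ε)] : Fin 3 → ℂ) 2) ^ 2 =
      -64 * ((ED i ε).sysM 0).det ^ 2 := by
    simp only [Matrix.of_apply, Matrix.cons_val', Matrix.cons_val_zero, Matrix.cons_val_one,
      Matrix.cons_val_fin_one, Matrix.cons_val]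
    linear_combination (-96 * ((ED i ε).sysM 0).det ^ 2 +
      64 * ε ^ 2 * ((ED i ε).sysM 0).det ^ 2) * hi - 64 * ((ED i ε).sysM 0).det ^ 2 * hε
  rw [h6]
  exact mul_ne_zero (by norm_num) (pow_ne_zero _ h5)

include hi in
theorem ED_p : (ED i ε).gp 0 ≠ 0 := by
  unfold EDat.gp
  rw [ED_mt hi, tri0, ED_dd hi]
  have h5 : ((ED i ε).sysM 0).det ≠ 0 := ED_d hi
  have h6 : (ED i ε).h 0 = 1 := rfl
  have h7 : (ED i ε).h 1 = 1 := rfl
  simp [h5, h6, h7]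

include hi in
theorem ED_q : (ED i ε).gq 0 ≠ 0 := by
  unfold EDat.gq
  have h3 : sym (0 : Fin 5 → ℂ) = 0 := by
    ext i j
    fin_cases i <;> fin_cases j <;> simp [sym]
  have h5 : ((ED i ε).sysM 0).det ≠ 0 := ED_d hi
  rw [ED_mt hi, h3, ED_hM]
  simp [h5, Matrix.det_fin_three]

include hi hε in
theorem ED_r : (ED i ε).gr 0 ≠ 0 := by
  have h4 : cub1 (ED i ε).h5 ((ED i ε).a5 0) = ![-2, 0, -4, 4] := by
    have h5 : sym (ED i ε).h5 = !![1, 0, 0; 0, 1, 0; 0, 0, -2] := ED_hM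
    have h6 : sym ((ED i ε).a5 0) = !![1, i, 2; i, -1, 0; 2, 0, 0] := ED_aM
    unfold cub1
    rw [h5, h6]
    funext k
    fin_cases k <;> simp [EDat.h5, EDat.a5, ED, Matrix.det_fin_three] <;> ring_nf <;> simp [hi] <;>
      norm_num
  have h7 : cub2 (ED i ε).h5 ((ED i ε).a5 0) 0 ![0, -16 * ε, 8 * (i * ε)] =
      ![0, 0, 384, -256] := by
    have h5 : sym (ED i ε).h5 = !![1, 0, 0; 0, 1, 0; 0, 0, -2] := ED_hM
    have h6 : sym ((ED i ε).a5 0) = !![1, i, 2; i, -1, 0; 2, 0, 0] := ED_aM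
    unfold cub2
    rw [h5, h6]
    funext k
    fin_cases k <;> simp [qf] <;> ring_nf <;> simp [hi, hε] <;> norm_num
  have h8 := cub2_smul (ED i ε).h5 ((ED i ε).a5 0) 0 ![0, -16 * ε, 8 * (i * ε)]
    ((ED i ε).sysM 0).det
  have h9 : (fun j => ((ED i ε).sysM 0).det * (0 : Fin 3 → ℂ) j) = tri (sym ((ED i ε).mt 0))
      (ED i ε).hM ((ED i ε).aM 0) := by
    rw [ED_mt hi, tri0]
    funext j
    simp
  unfold EDat.gr
  rw [ED_gt hi, ← h9, h8, bez_smul, h4, h7]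
  refine mul_ne_zero (pow_ne_zero _ (pow_ne_zero _ (ED_d hi))) ?_
  simp [bez, Matrix.det_fin_three]
  norm_num

include hi hε in
theorem ED_GG (k : Fin 8) : GG k ℂ (ED i ε) 0 ≠ 0 := by
  fin_cases k
  · change (ED i ε).gk 0 ≠ 0
    rw [ED_k hi]
    norm_num
  · exact ED_n hi
  · exact ED_d hi
  · exact ED_r hi hε
  · exact ED_c hi hε
  · exact ED_p hi
  · exact ED_q hi
  · exact ED_s hi

include hi hε in
/-- **The datum is in general position.** -/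
theorem ED_DE : eval (ED i ε).coord DE ≠ 0 := by
  refine DE_eval_ne (ED_GG hi hε) (fun k => ?_) (ED_K hi)
  rw [ED_swap]
  exact ED_GG (by rw [neg_sq, hi]) (by rw [neg_sq, hε]) k

end

end Pool.Agent.GTEX
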