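import Pool.Agent.GTEX.Dat

/-!
# GTEX: the K3 surface of the datum `ED i ε`

For the parameters `c = (γ β - 1, β - 1)` the point `(z, a - x h)` with `3 x ^ 3 + 2 γ ^ 2 β ^ 3 = 0` is
on the surface, `d = 96 γ β` and `cls = (8 i ε γ β) ^ 2 - d (i x) ^ 2`.
-/

set_option autoImplicit false

noncomputable section

namespace Pool.Agent.GTEX

open Matrix Pool.Agent.TK Pool.Agent.GTE

section

variable {M : Type} [CommRing M] {i ε x : M} {c : Fin 2 → M}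

theorem ED_ah : (ED i ε).ah c = 0 := by
  simp [EDat.ah, ED]

theorem ED_hMM : (ED i ε).hM = !![1, 0, 0; 0, 1, 0; 0, 0, -2] := by
  ext a b
  fin_cases a <;> fin_cases b <;> simp [EDat.hM, ED, sym]
  norm_num

theorem ED_aMM : (ED i ε).aM c = !![1 + c 1, i * (1 + c 1), 2 + c 0; i * (1 + c 1), -(1 + c 1), -(i * c 0);
    2 + c 0, -(i * c 0), 0] := by
  ext a b
  fin_cases a <;> fin_cases b <;> simp [EDat.aM, ED, sym] <;> ring

theorem ED_dM (hi : i ^ 2 = -1) : (ED i ε).d c = 96 * (1 + c 0) := by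
  unfold EDat.d
  rw [ED_ah, ED_hMM, ED_aMM]
  simp [kf, dot, Matrix.trace_fin_three]
  linear_combination (36 * c 0 ^ 2 - 12 * c 0 ^ 2 - 12 * (1 + c 1) ^ 2) * hi

end

variable {M : Type} [Field M] [CharZero M]

/-- the matrix `z` -/
def zE (i ε γ β : M) : Fin 5 → M :=
  ![-(ε * (3 / 2 * β + γ)), ε * (3 / 2 * β + γ), ε * i * (γ - 3 / 2 * β), ε * (γ * β),
    -(ε * i * (γ * β))]

variable {i ε x γ β : M} {c : Fin 2 → M}

theorem ED_tM (h0 : c 0 = γ * β - 1) (h1 : c 1 = β - 1) :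
    tri (sym (zE i ε γ β)) (ED i ε).hM ((ED i ε).aM c) 2 = 8 * (i * ε * (γ * β)) := by
  rw [ED_hMM, ED_aMM, h0, h1]
  simp [tri, GTE.vec, sym, zE]
  ring

theorem ED_cls (hi : i ^ 2 = -1) (h0 : c 0 = γ * β - 1) (h1 : c 1 = β - 1) :
    (ED i ε).cls c x (zE i ε γ β) = (8 * (i * ε * (γ * β))) ^ 2 - (ED i ε).d c * (i * x) ^ 2 := by
  unfold EDat.cls
  rw [ED_tM h0 h1, ED_dM hi, ED_hMM, ED_aMM, h0, h1]
  simp only [Matrix.sub_apply, Matrix.smul_apply, Matrix.of_apply, Matrix.cons_val',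
    Matrix.cons_val_zero, Matrix.cons_val_one, Matrix.cons_val_fin_one, smul_eq_mul]
  linear_combination (-96 * (γ * β) * β ^ 2 + 96 * (γ * β) * x ^ 2) * hi

theorem ED_surf (hi : i ^ 2 = -1) (hε : ε ^ 2 = 1) (h0 : c 0 = γ * β - 1) (h1 : c 1 = β - 1)
    (hx : 3 * x ^ 3 + 2 * (γ ^ 2 * β ^ 3) = 0) :
    (ED i ε).Surf c x (zE i ε γ β) where
  h := by
    rw [ED_ah, ED_hMM]
    simp [dot, Matrix.trace_fin_three, sym, zE]
  f := by
    intro j
    fin_cases j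
    · simp [EDat.fM, EDat.af, ED, dot, Matrix.trace_fin_three, sym, zE, h0, h1]
      linear_combination (-2 * ε * (γ - 3 / 2 * β)) * hi
    · simp [EDat.fM, EDat.af, ED, dot, Matrix.trace_fin_three, sym, zE, h0, h1]
      linear_combination (-2 * ε * (γ * β)) * hi
    · simp [EDat.fM, EDat.af, ED, dot, Matrix.trace_fin_three, sym, zE, h0, h1]
      linear_combination (-2 * ε * (γ - 3 / 2 * β)) * hi
  quad := by
    rw [ED_hMM, ED_aMM, h0, h1]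
    simp [dot, Matrix.trace_fin_three, sym, zE]
    linear_combination (2 * ε * β * (γ - 3 / 2 * β) - 2 * ε * (γ * β) * (1 - γ * β)) * hi
  cubic := by
    rw [ED_hMM, ED_aMM, h0, h1]
    simp [Matrix.trace_fin_three, Matrix.det_fin_three, sym, zE]
    linear_combination (-2*ε^2*γ^3*β^2 + 6*ε^2*γ^2*β^3 + ε^2*γ^2*β^2*x - 2*ε^2*γ^2*β -
      2*ε^2*γ^2*x - 3*ε^2*γ*β^2 + 6*ε^2*γ*β*x - 9/2*ε^2*β^2*x - 9*γ^2*β^3 + 3*γ^2*β^2*x +
      6*γ*β^2 - 6*γ*β*x - 6*β^2*x + 3*β + 3*x) * hi + (-8*γ^2*β^3 - 12*γ*β*x) * hε + 2 * hx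

end Pool.Agent.GTEX
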