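import Pool.Agent.GTEX.IrrX
import Pool.Agent.GTEX.SurfE
import Pool.Agent.GSE.Fld

/-!
# GTEX: all hypotheses of the theorem on type E data hold in an example

`exampleE`: the cubic fourfold `CX`, the datum `ED I 1` and the parameters `cE`.
-/

set_option autoImplicit false

noncomputable section

namespace Pool.Agent.GTEX

open MvPolynomial Matrix Pool.Agent.TK Pool.Agent.GTE
open scoped Quaternion

/-! ### Elements of `K` -/

theorem not_cube (P : MvPolynomial (Fin 2) ℂ) (a : ℂ)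
    (h : ¬ 3 ∣ (aeval ![Polynomial.C a, Polynomial.X] P : Polynomial ℂ).natDegree) (b : K) :
    b ^ 3 ≠ algebraMap (MvPolynomial (Fin 2) ℂ) K P := by
  intro hb
  have h1 : Polynomial.aeval b (Polynomial.X ^ 3 - Polynomial.C P) = 0 := by
    simp only [map_sub, map_pow, Polynomial.aeval_X, Polynomial.aeval_C]
    rw [hb, sub_self]
  obtain ⟨p, rfl⟩ := isInteger_of_is_root_of_monic
    (Polynomial.monic_X_pow_sub_C P three_ne_zero) h1
  have h2 : p ^ 3 = P := FaithfulSMul.algebraMap_injective (MvPolynomial (Fin 2) ℂ) K (by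
    rw [map_pow]
    exact hb)
  apply h
  rw [← h2, map_pow, Polynomial.natDegree_pow]
  exact dvd_mul_right _ _

theorem K_ne (P : MvPolynomial (Fin 2) ℂ) (a : Fin 2 → ℂ) (h : eval a P ≠ 0) :
    algebraMap (MvPolynomial (Fin 2) ℂ) K P ≠ 0 := by
  rw [Ne, map_eq_zero_iff _ (FaithfulSMul.algebraMap_injective (MvPolynomial (Fin 2) ℂ) K)]
  rintro rfl
  exact h (map_zero _)

theorem s_ne : (var 0 : K) ≠ 0 := K_ne (X 0) ![1, 0] (by simp)

theorem w_ne (n : ℕ) : (var 1 - n * var 0 ^ 2 : K) ≠ 0 := by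
  have h := K_ne (X 1 - (n : MvPolynomial (Fin 2) ℂ) * X 0 ^ 2) ![0, 1] (by simp)
  rwa [map_sub, map_mul, map_pow, map_natCast] at h

/-- the cube -/
def uE : K := 2 * var 0 ^ 2 / (var 1 - 2 * var 0 ^ 2)

theorem w2_ne : (var 1 - 2 * var 0 ^ 2 : K) ≠ 0 := w_ne 2

theorem w3_ne : (var 1 - 3 * var 0 ^ 2 : K) ≠ 0 := w_ne 3

theorem uE_nc (b : K) : b ^ 3 ≠ uE := by
  intro h
  refine not_cube (2 * X 0 ^ 2 * (X 1 - 2 * X 0 ^ 2) ^ 2) 1 ?_ (b * (var 1 - 2 * var 0 ^ 2)) ?_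
  · have h1 : (aeval ![Polynomial.C (1 : ℂ), Polynomial.X] (2 * X 0 ^ 2 * (X 1 - 2 * X 0 ^ 2) ^ 2 :
        MvPolynomial (Fin 2) ℂ) : Polynomial ℂ) = 2 * (Polynomial.X - 2) ^ 2 := by
      simp
    have h2 : (2 * (Polynomial.X - 2) ^ 2 : Polynomial ℂ).natDegree = 2 := by
      compute_degree!
    rw [h1, h2]
    norm_num
  · rw [mul_pow, h, uE, div_mul_eq_mul_div, div_eq_iff w2_ne]
    simp only [map_mul, map_sub, map_pow, map_ofNat]
    change 2 * var 0 ^ 2 * (var 1 - 2 * var 0 ^ 2) ^ 3 =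
      2 * var 0 ^ 2 * (var 1 - 2 * var 0 ^ 2) ^ 2 * (var 1 - 2 * var 0 ^ 2)
    ring

/-- the parameters -/
def cE : Fin 2 → K := ![var 0 - 1, -3 * var 0 ^ 3 / (var 1 - 2 * var 0 ^ 2) - 1]

theorem cE_top : IntermediateField.adjoin ℂ (Set.range cE) = ⊤ := by
  set T := IntermediateField.adjoin ℂ (Set.range cE) with hT
  have h0 : cE 0 ∈ T := IntermediateField.subset_adjoin _ _ ⟨0, rfl⟩
  have h1 : cE 1 ∈ T := IntermediateField.subset_adjoin _ _ ⟨1, rfl⟩
  have hs : (var 0 : K) ∈ T := by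
    have h2 : (var 0 : K) = cE 0 + 1 := by
      simp [cE]
    rw [h2]
    exact T.add_mem h0 T.one_mem
  have ht : (var 1 : K) ∈ T := by
    have h3 : cE 1 + 1 = -3 * var 0 ^ 3 / (var 1 - 2 * var 0 ^ 2) := by
      simp [cE]
    have h4 : (var 1 : K) = 2 * var 0 ^ 2 + -3 * var 0 ^ 3 / (cE 1 + 1) := by
      have h5 := w2_ne
      have h6 := s_ne
      rw [h3]
      field_simp
      ring
    rw [h4]
    exact T.add_mem (T.mul_mem (T.natCast_mem 2) (T.pow_mem hs 2))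
      (T.div_mem (T.mul_mem (T.neg_mem (T.natCast_mem 3)) (T.pow_mem hs 3))
        (T.add_mem h1 T.one_mem))
  exact GSE.top_of_st hs ht

/-! ### The partner -/

theorem ED_mapcc (M : Type) [Field M] [Algebra K M] (i ε : ℂ) :
    (ED i ε).map (cc M) = ED (cc M i) (cc M ε) :=
  ED_map ((algebraMap K M).comp (algebraMap ℂ K)) i ε

theorem cc_sq (M : Type) [Field M] [Algebra K M] {i : ℂ} (hi : i ^ 2 = -1) : cc M i ^ 2 = -1 := by
  have h : cc M (i ^ 2) = cc M i ^ 2 :=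
    map_pow ((algebraMap K M).comp (algebraMap ℂ K)) i 2
  rw [← h, hi]
  simp [cc]

theorem cc_sq' (M : Type) [Field M] [Algebra K M] {i : ℂ} (hi : i ^ 2 = 1) : cc M i ^ 2 = 1 := by
  have h : cc M (i ^ 2) = cc M i ^ 2 :=
    map_pow ((algebraMap K M).comp (algebraMap ℂ K)) i 2
  rw [← h, hi]
  simp [cc]

/-- the cube for the partner -/
def uF : K := -(2 / 3) * ((1 + var 0) ^ 2 * (1 + var 1))

theorem uF_nc (b : K) : b ^ 3 ≠ uF := by
  intro h
  refine not_cube (C (-(2 / 3)) * ((1 + X 0) ^ 2 * (1 + X 1))) 0 ?_ b ?_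
  · have h1 : (aeval ![Polynomial.C (0 : ℂ), Polynomial.X]
        (C (-(2 / 3)) * ((1 + X 0) ^ 2 * (1 + X 1)) : MvPolynomial (Fin 2) ℂ) : Polynomial ℂ) =
        Polynomial.C (-(2 / 3)) * (1 + Polynomial.X) := by
      simp
    have h2 : (Polynomial.C (-(2 / 3)) * (1 + Polynomial.X) : Polynomial ℂ).natDegree = 1 := by
      compute_degree!
    rw [h1, h2]
    norm_num
  · rw [h, uF]
    simp only [map_mul, map_add, map_pow, map_one]
    have h3 : algebraMap (MvPolynomial (Fin 2) ℂ) K (C (-(2 / 3))) = -(2 / 3) := by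
      rw [← MvPolynomial.algebraMap_eq, ← IsScalarTower.algebraMap_apply ℂ (MvPolynomial (Fin 2) ℂ) K,
        map_neg, map_div₀, map_ofNat, map_ofNat]
    rw [h3]
    rfl

theorem v1_ne : (1 + var 1 : K) ≠ 0 := by
  have h := K_ne (1 + X 1) 0 (by simp)
  rwa [map_add, map_one] at h

theorem untwisted {i ε : ℂ} (hi : i ^ 2 = -1) (hε : ε ^ 2 = 1) : (ED i ε).Untwisted := by
  obtain ⟨M, _, _, ⟨k⟩⟩ := exists_kum uF uF_nc
  have : CharZero M := charZero_of_injective_algebraMap (algebraMap K M).injective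
  set s : M := algebraMap K M (var 0) with hs
  set t : M := algebraMap K M (var 1) with ht
  have ht1 : 1 + t ≠ 0 := by
    have h := (map_ne_zero (algebraMap K M)).2 v1_ne
    rwa [map_add, map_one] at h
  have h0 : (fun j => algebraMap K M (var j)) 0 = (1 + s) / (1 + t) * (1 + t) - 1 := by
    rw [div_mul_cancel₀ _ ht1]
    simp [hs]
  have h1 : (fun j => algebraMap K M (var j)) 1 = (1 + t) - 1 := by
    simp [ht]
  have hξ : 3 * k.ξ ^ 3 + 2 * (((1 + s) / (1 + t)) ^ 2 * (1 + t) ^ 3) = 0 := by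
    rw [k.cube, uF]
    have h2 : algebraMap K M (-(2 / 3) * ((1 + var 0) ^ 2 * (1 + var 1))) =
        -(2 / 3) * ((1 + s) ^ 2 * (1 + t)) := by
      simp only [map_mul, map_neg, map_div₀, map_ofNat, map_pow, map_add, map_one, hs, ht]
    rw [h2]
    field_simp
    ring
  refine ⟨M, inferInstance, inferInstance, k.ξ, zE (cc M i) (cc M ε) ((1 + s) / (1 + t)) (1 + t),
    ![8 * (cc M i * cc M ε * ((1 + s) / (1 + t) * (1 + t))), cc M i * k.ξ], k.fin, ⟨?_, k.top⟩, ?_⟩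
  · rw [ED_mapcc]
    exact ED_surf (cc_sq M hi) (cc_sq' M hε) h0 h1 hξ
  · rw [ED_mapcc]
    exact ED_cls (cc_sq M hi) h0 h1

/-! ### The two surfaces -/

theorem same : SameK3 (CX ℂ) (ED Complex.I 1) cE := by
  obtain ⟨M, _, _, ⟨k⟩⟩ := exists_kum uE uE_nc
  have : CharZero M := charZero_of_injective_algebraMap (algebraMap K M).injective
  set s : M := algebraMap K M (var 0) with hs
  set t : M := algebraMap K M (var 1) with ht
  have hs0 : s ≠ 0 := (map_ne_zero (algebraMap K M)).2 s_ne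
  have hw : t - 2 * s ^ 2 ≠ 0 := by
    have h := (map_ne_zero (algebraMap K M)).2 w2_ne
    rwa [map_sub, map_mul, map_pow, map_ofNat] at h
  have hξ : k.ξ ^ 3 * (t - 2 * s ^ 2) = 2 * s ^ 2 := by
    rw [k.cube, uE]
    simp only [map_div₀, map_sub, map_mul, map_pow, map_ofNat, ← hs, ← ht]
    rw [div_mul_cancel₀ _ hw]
  have h1 : 1 + k.ξ ≠ 0 := by
    have h := k.ne 1 1 0 (Or.inl one_ne_zero)
    rwa [map_one, map_zero, zero_mul, add_zero, one_mul] at h
  have h2 : k.ξ ≠ 0 := by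
    have h := k.ne 0 1 0 (Or.inr (Or.inl one_ne_zero))
    rwa [map_one, map_zero, zero_mul, add_zero, one_mul, zero_add] at h
  obtain ⟨η, hη1⟩ : ∃ η : M, 2 * η * (1 + k.ξ) = 1 := ⟨1 / (2 * (1 + k.ξ)), by
    field_simp⟩
  have hη2 : 2 * η - 1 = -2 * η * k.ξ := by linear_combination hη1
  have hη0 : η ≠ 0 := by
    intro h
    rw [h, mul_zero, zero_mul] at hη1
    exact zero_ne_one hη1
  have h3 : 2 * η - 1 ≠ 0 := by
    rw [hη2]
    exact mul_ne_zero (mul_ne_zero (by norm_num) hη0) h2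
  have hE : (2 * η - 1) ^ 3 * (t - 2 * s ^ 2) + 16 * η ^ 3 * s ^ 2 = 0 := by
    rw [hη2]
    linear_combination (-8 * η ^ 3) * hξ
  have hS := CX_surf hE
  -- the numbers do not vanish
  have n0 : nX s t η 0 ≠ 0 := by
    intro h
    refine k.ne (var 1 + 6 * var 0 ^ 2) (6 * var 0 ^ 2) 0
      (Or.inr (Or.inl (mul_ne_zero (by norm_num) (pow_ne_zero 2 s_ne)))) ?_
    simp only [map_add, map_mul, map_pow, map_ofNat, map_zero, ← hs, ← ht]
    simp only [nX, Matrix.cons_val_zero] at h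
    linear_combination 2 * (1 + k.ξ) * h - t * hη1
  have n0' : nX' s t η 0 ≠ 0 := by
    intro h
    refine k.ne (var 1 - 6 * var 0 ^ 2) (2 * (var 1 - 3 * var 0 ^ 2)) 0
      (Or.inr (Or.inl (mul_ne_zero (by norm_num) w3_ne))) ?_
    simp only [map_sub, map_mul, map_pow, map_ofNat, map_zero, ← hs, ← ht]
    simp only [nX', Matrix.cons_val_zero] at h
    linear_combination 2 * (1 + k.ξ) * h + t * hη1
  have nd : det2 (nX s t η) ≠ 0 := by
    rw [hS.quad]
    intro h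
    refine k.ne (var 1 - 6 * var 0 ^ 2 - 4 * var 0 ^ 2) (2 * (var 1 - 3 * var 0 ^ 2) - 8 * var 0 ^ 2)
      (-4 * var 0 ^ 2)
      (Or.inr (Or.inr (mul_ne_zero (by norm_num) (pow_ne_zero 2 s_ne)))) ?_
    simp only [map_sub, map_mul, map_neg, map_pow, map_ofNat, ← hs, ← ht]
    simp only [det2, nX', Matrix.cons_val_zero, Matrix.cons_val_one, Matrix.cons_val] at h
    linear_combination 4 * (1 + k.ξ) ^ 2 * h + (-2 * (1 + k.ξ) * (t - 3 * s ^ 2) +
      t * (2 * (1 + k.ξ) * η + 1)) * hη1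
  have hG : (CX ℂ).Gen (nX s t η) (nX' s t η) := by
    refine ⟨?_, ?_, ?_, ?_, ?_⟩
    · have hm : (CX ℂ).map (cc M) = CX M := CX_map ((algebraMap K M).comp (algebraMap ℂ K))
      rw [hm]
      exact hS
    · simp only [nX, nX', Matrix.cons_val_zero]
      ring
    · simp only [nX, nX', Matrix.cons_val_one, Matrix.cons_val_zero]
      ring
    · simp only [nX, nX', Matrix.cons_val]
      ring
    · apply k.top_of
      have h4 : nX s t η 2 ∈ IntermediateField.adjoin K (Set.range (nX s t η)) :=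
        IntermediateField.subset_adjoin _ _ ⟨2, rfl⟩
      have h5 : k.ξ = 1 / (2 * (1 - nX s t η 2)) - 1 := by
        simp only [nX, Matrix.cons_val]
        rw [eq_sub_iff_add_eq, eq_div_iff (by
          rw [sub_sub_cancel]
          exact mul_ne_zero two_ne_zero hη0)]
        linear_combination hη1
      rw [h5]
      set T := IntermediateField.adjoin K (Set.range (nX s t η))
      exact T.sub_mem (T.div_mem T.one_mem (T.mul_mem (T.natCast_mem 2)
        (T.sub_mem T.one_mem h4))) T.one_mem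
  -- the datum
  obtain ⟨β, hβ⟩ : ∃ β : M, β = -3 * s ^ 3 / (t - 2 * s ^ 2) := ⟨_, rfl⟩
  obtain ⟨γ, hγ⟩ : ∃ γ : M, γ = -(t - 2 * s ^ 2) / (3 * s ^ 2) := ⟨_, rfl⟩
  have hγβ : γ * β = s := by
    rw [hγ, hβ]
    field_simp
  have c0 : (fun j => algebraMap K M (cE j)) 0 = γ * β - 1 := by
    rw [hγβ]
    simp [cE, hs]
  have c1 : (fun j => algebraMap K M (cE j)) 1 = β - 1 := by
    rw [hβ]
    simp only [cE, Matrix.cons_val_one, Matrix.cons_val_zero, map_sub, map_div₀, map_mul, map_neg,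
      map_pow, map_ofNat, map_one, ← hs, ← ht]
  have hx : 3 * (s * k.ξ) ^ 3 + 2 * (γ ^ 2 * β ^ 3) = 0 := by
    have h4 : k.ξ ^ 3 = 2 * s ^ 2 / (t - 2 * s ^ 2) := by
      rw [eq_div_iff hw, hξ]
    have h5 : γ ^ 2 * β ^ 3 = (γ * β) ^ 2 * β := by ring
    rw [mul_pow, h4, h5, hγβ, hβ]
    field_simp
    ring
  have hi := cc_sq M Complex.I_sq
  have hε := cc_sq' M (one_pow 2)
  have hcls := ED_cls (c := fun j => algebraMap K M (cE j)) (x := s * k.ξ) (ε := cc M 1) hi c0 c1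
  have hd : (ED (cc M Complex.I) (cc M 1)).d (fun j => algebraMap K M (cE j)) = 96 * s := by
    rw [ED_dM hi]
    have h4 : algebraMap K M (cE 0) = γ * β - 1 := c0
    rw [h4, hγβ]
    ring
  rw [hγβ] at hcls
  refine ⟨M, inferInstance, inferInstance, nX s t η, nX' s t η, s * k.ξ,
    zE (cc M Complex.I) (cc M 1) γ β, k.fin, hG, ⟨?_, ?_⟩, ?_⟩
  · rw [ED_mapcc]
    exact ED_surf hi hε c0 c1 hx
  · apply k.top_of
    have h4 : s * k.ξ ∈ IntermediateField.adjoin K {s * k.ξ} :=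
      IntermediateField.subset_adjoin _ _ rfl
    have h6 := (IntermediateField.adjoin K {s * k.ξ}).div_mem h4
      ((IntermediateField.adjoin K {s * k.ξ}).algebraMap_mem (var 0))
    rwa [← hs, mul_div_cancel_left₀ _ hs0] at h6
  · rw [ED_mapcc]
    have hc : (ED (cc M Complex.I) (cc M 1)).cls (fun j => algebraMap K M (cE j)) (s * k.ξ)
        (zE (cc M Complex.I) (cc M 1) γ β) ≠ 0 := by
      rw [hcls, hd]
      intro h
      refine k.ne (-64 * var 0 ^ 2) 0 (96 * var 0 ^ 3)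
        (Or.inl (mul_ne_zero (by norm_num) (pow_ne_zero 2 s_ne))) ?_
      simp only [map_mul, map_neg, map_pow, map_ofNat, map_zero, ← hs]
      linear_combination h + (-64 * s ^ 2 + 96 * s ^ 3 * k.ξ ^ 2) * hi -
        64 * s ^ 2 * cc M Complex.I ^ 2 * hε
    obtain ⟨κ, hκ⟩ : ∃ κ : M, κ * (2 * η - 1) = 1 := ⟨(2 * η - 1)⁻¹, inv_mul_cancel₀ h3⟩
    obtain ⟨f⟩ := split_alg (d := -det2 (nX s t η)) (neg_ne_zero.2 nd) two_ne_zero
      (mul_ne_zero n0 n0') (CX_norm hE hκ)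
    obtain ⟨g⟩ := split_alg (d := (ED (cc M Complex.I) (cc M 1)).d fun j => algebraMap K M (cE j))
      (by rw [hd]; exact mul_ne_zero (by norm_num) hs0) two_ne_zero hc (hcls.symm)
    exact ⟨f.trans g.symm⟩

/-- **The example.** -/
theorem exampleE : ∃ (X : Cub ℂ) (E : EDat ℂ) (c : Fin 2 → K), X.NonDeg ∧ Irreducible X.F ∧
    eval E.coord DE ≠ 0 ∧ IntermediateField.adjoin ℂ (Set.range c) = ⊤ ∧ SameK3 X E c ∧
    E.swap.Untwisted :=
  ⟨CX ℂ, ED Complex.I 1, cE, CX_nonDeg, CX_irr, ED_DE Complex.I_sq (one_pow 2), cE_top, same, by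
    rw [ED_swap]
    exact untwisted (by rw [neg_sq, Complex.I_sq]) (by rw [neg_sq, one_pow])⟩

end Pool.Agent.GTEX
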