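import Pool.Agent.GTEX.Kum
import Pool.Agent.GTE.FinE

/-!
# GTEX: an explicit cubic fourfold of the family `Cub`

`exX`: the cubic fourfold. For a number `η` with `(2 η - 1) ^ 3 (t - 2 s ^ 2) + 16 η ^ 3 s ^ 2 = 0` the
matrices `n = (t η + 3 s ^ 2, -2 s, 1 - η)` and `n' = (t - t η - 3 s ^ 2, s, η)` satisfy the three
equations of its K3 surface, and `n₀₀ n'₀₀` is a norm.
-/

set_option autoImplicit false

noncomputable section

namespace Pool.Agent.GTEX

open MvPolynomial Pool.Agent.TK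

/-- The cubic fourfold, over any ring. -/
def CX (R : Type) [CommRing R] : Cub R where
  a := ![![0, 1, 0], ![0, 1, 0], ![0, 0, 1], ![0, 1, 0], ![0, 0, -1], ![0, 0, -1]]
  b := ![![0, -2, 0], ![0, -1, 0], ![0, 0, 1], ![0, -1, 0], ![0, 0, 1], ![0, 0, 0]]

theorem CX_map {R R' : Type} [CommRing R] [CommRing R'] (φ : R →+* R') :
    (CX R).map φ = CX R' := by
  unfold Cub.map CX
  congr 1
  · funext a b
    fin_cases a <;> fin_cases b <;> simp
  · funext a b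
    fin_cases a <;> fin_cases b <;> simp [map_ofNat φ]

theorem CX_nonDeg : (CX ℂ).NonDeg where
  det := by
    simp [CX]
    norm_num
  a0 := by
    intro h
    have h1 := congrFun h 1
    simp [CX] at h1
  b0 := by
    intro h
    have h1 := congrFun h 1
    simp [CX] at h1

theorem CX_F : (CX ℂ).F = (3 * X 0 ^ 2 + 2 * (X 0 * X 1) + 2 * (X 0 * X 3) - X 1 ^ 2) * X 5 +
    (-(X 2 * (X 1 ^ 2 + 2 * (X 0 * X 1) + 2 * (X 1 * X 3) + X 3 ^ 2)) -
      X 4 * (X 1 ^ 2 + 3 * X 3 ^ 2 + 4 * (X 0 * X 3) + 2 * (X 1 * X 3))) := by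
  have h2 : (C 2 : MvPolynomial (Fin 6) ℂ) = 2 := map_ofNat C 2
  unfold Cub.F lin CX
  simp [Fin.sum_univ_succ]
  rw [h2]
  ring

section

variable {M : Type} [Field M]

/-- the matrix `n` -/
def nX (s t η : M) : Fin 3 → M := ![t * η + 3 * s ^ 2, -2 * s, 1 - η]

/-- the matrix `n'` -/
def nX' (s t η : M) : Fin 3 → M := ![t - t * η - 3 * s ^ 2, s, η]

variable {s t η : M}

theorem CX_surf (h : (2 * η - 1) ^ 3 * (t - 2 * s ^ 2) + 16 * η ^ 3 * s ^ 2 = 0) :
    (CX M).Surf (nX s t η) (nX' s t η) where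
  lin := by
    simp [Cub.gg, tr2, CX, nX, nX']
    ring
  quad := by
    simp [det2, nX, nX']
    ring
  cubic := by
    simp [Cub.gg, tr2, adj2, det2, CX, nX, nX', -mul_eq_mul_left_iff, -mul_eq_mul_right_iff]
    linear_combination h

theorem CX_norm (h : (2 * η - 1) ^ 3 * (t - 2 * s ^ 2) + 16 * η ^ 3 * s ^ 2 = 0) {κ : M}
    (hκ : κ * (2 * η - 1) = 1) :
    (nX s t η 0 + 4 * s ^ 2 * κ) ^ 2 - -det2 (nX s t η) * (2 * s * κ) ^ 2 =
      nX s t η 0 * nX' s t η 0 := by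
  have h1 : 2 * η - 1 ≠ 0 := by
    intro h1
    rw [h1, mul_zero] at hκ
    exact zero_ne_one hκ
  apply mul_right_cancel₀ (pow_ne_zero 2 h1)
  simp only [det2, nX, nX', Matrix.cons_val_zero, Matrix.cons_val_one, Matrix.cons_val]
  linear_combination (t * η + 3 * s ^ 2) * h + (8 * (t * η + 3 * s ^ 2) * s ^ 2 * (2 * η - 1) +
    (16 * s ^ 4 + 4 * s ^ 2 * ((t * η + 3 * s ^ 2) * (1 - η) - 4 * s ^ 2)) *
      (κ * (2 * η - 1) + 1)) * hκ

end

end Pool.Agent.GTEX
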