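import Pool.Agent.GTE.FinE

/-!
# GTEX: the theorem on type E data with an explicit polynomial

`DE`: the product of the 17 polynomials of `GTE/Good` at the universal datum. `DE_ne`: it is not zero.
`DE_good`: data with `DE ≠ 0` are `Good`. `DE_eval_ne`: how to check `DE ≠ 0`. `DE_final`: the theorem.
-/

set_option autoImplicit false

noncomputable section

namespace Pool.Agent.GTEX

open MvPolynomial Matrix Pool.Agent.TK Pool.Agent.GTE
open scoped Quaternion

/-- The polynomial. -/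
def DE : MvPolynomial EIdx ℂ := (∏ i, GG i _ UE 0) * (∏ i, GG i _ UE.swap 0) * UE.gK 0

theorem DE_ne : DE ≠ 0 := by
  refine mul_ne_zero (mul_ne_zero (Finset.prod_ne_zero_iff.2 fun i _ => ?_)
    (Finset.prod_ne_zero_iff.2 fun i _ => ?_)) ?_
  · exact U_ne (GG i) (GG_map i) (GG_E1 i)
  · exact Us_ne (GG i) (GG_map i) (GG_E1 i)
  · exact U_ne (fun _ _ E x => EDat.gK E x) (fun _ _ _ _ φ E x => EDat.gK_map φ E x) E1_K

theorem eval_gK (E : EDat ℂ) : eval E.coord (UE.gK 0) = E.gK 0 :=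
  eval_U (fun _ _ E x => EDat.gK E x) (fun _ _ _ _ φ E x => EDat.gK_map φ E x) E

theorem eval_DE (E : EDat ℂ) :
    eval E.coord DE = (∏ i, GG i ℂ E 0) * (∏ i, GG i ℂ E.swap 0) * E.gK 0 := by
  unfold DE
  rw [map_mul, map_mul, map_prod, map_prod, eval_gK]
  congr 2
  · exact Finset.prod_congr rfl fun i _ => eval_U (GG i) (GG_map i) E
  · exact Finset.prod_congr rfl fun i _ => eval_Us (GG i) (GG_map i) E

theorem DE_good {E : EDat ℂ} (hE : eval E.coord DE ≠ 0) : E.Good := by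
  rw [eval_DE] at hE
  have h1 := left_ne_zero_of_mul (left_ne_zero_of_mul hE)
  have h2 := right_ne_zero_of_mul (left_ne_zero_of_mul hE)
  have h3 := right_ne_zero_of_mul hE
  rw [Finset.prod_ne_zero_iff] at h1 h2
  exact ⟨pos_GG fun i => h1 i (Finset.mem_univ _), pos_GG fun i => h2 i (Finset.mem_univ _), h3⟩

theorem DE_eval_ne {E : EDat ℂ} (h1 : ∀ i, GG i ℂ E 0 ≠ 0) (h2 : ∀ i, GG i ℂ E.swap 0 ≠ 0)
    (h3 : E.gK 0 ≠ 0) : eval E.coord DE ≠ 0 := by
  rw [eval_DE]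
  exact mul_ne_zero (mul_ne_zero (Finset.prod_ne_zero_iff.2 fun i _ => h1 i)
    (Finset.prod_ne_zero_iff.2 fun i _ => h2 i)) h3

/-- the theorem for a datum in general position, with the points -/
theorem good_final (X : Cub ℂ) (E : EDat ℂ) (c : Fin 2 → K) (hn : X.NonDeg)
    (hirr : Irreducible X.F) (hE : E.Good) (hc : IntermediateField.adjoin ℂ (Set.range c) = ⊤)
    (M : Type) [Field M] [Algebra K M] (n n' : Fin 3 → M) (x : M) (z : Fin 5 → M)
    (hM : Module.finrank K M = 3) (hg : X.Gen n n') (hG : E.Gen c x z)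
    (he : Nonempty (ℍ[M, -det2 n, n 0 * n' 0] ≃ₐ[M]
      ℍ[M, (E.map (cc M)).d (fun i => algebraMap K M (c i)),
        (E.map (cc M)).cls (fun i => algebraMap K M (c i)) x z]))
    (M' : Type) [Field M'] [Algebra K M'] (x' : M') (z' : Fin 5 → M') (y : Fin 2 → M')
    (hM' : Module.finrank K M' = 3) (hG' : E.swap.Gen var x' z')
    (hy : (E.swap.map (cc M')).cls (fun i => algebraMap K M' (var i)) x' z' =
      y 0 ^ 2 - (E.swap.map (cc M')).d (fun i => algebraMap K M' (var i)) * y 1 ^ 2) :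
    Pool.Agent.P28.Rational X.F := by
  obtain ⟨m, g, hs⟩ := EDat.exists_sol (hE.e.d_ne (ind_c hc))
  obtain ⟨m', g', hs'⟩ := EDat.exists_sol (hE.f.d_ne (ind_c adjoin_st))
  rw [var_eq] at hG' hy
  rw [← X.to_F] at hirr ⊢
  have hn' : X.to.NonDeg := ⟨hn.det, hn.a0, hn.b0⟩
  have hsq : ¬IsSquare ((E.map (algebraMap ℂ K)).d c) := EDat.d_nsq hE.e.s hc
  have hsq' : GSH.NSq K ((E.swap.map (algebraMap ℂ K)).d ![GSX.sK, GSX.tK]) := fun f hf =>
    EDat.d_nsq hE.f.s adjoin_st ⟨f, by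
      have h1 : f ^ 2 = (E.swap.map (algebraMap ℂ K)).d ![GSX.sK, GSX.tK] := hf
      rw [← sq, h1]⟩
  have hS' : GSE2.Split ((E.swap.map (algebraMap ℂ K)).pen ![GSX.sK, GSX.tK] m' g') :=
    SE.split_E hE.f adjoin_st hM' hG' hs' hy
  have hST : GSQ.SameTwist X.to.pen ((E.map (algebraMap ℂ K)).pen c m g) := by
    obtain ⟨F₁, ⟨q₁⟩⟩ := GSK.exists_eigX (X' := X.to) hn' hirr hM hg.to
    obtain ⟨F₂, -, ⟨q₂⟩⟩ := SE.eig_E hE.e hc hM hG hs
    obtain ⟨q₀⟩ := he
    have hd : (E.map (cc M)).d (fun i => algebraMap K M (c i)) =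
        algebraMap K M ((E.map (algebraMap ℂ K)).pen c m g).d := by
      rw [← SE.cc_map, EDat.d_map]
      rfl
    rw [hd] at q₀ q₂
    exact ⟨M, inferInstance, inferInstance, hM, F₁, F₂, ⟨(q₁.trans q₀).trans q₂.symm⟩⟩
  refine same_gen X.to hn' hirr ((E.map (algebraMap ℂ K)).pen c m g)
    (GSQ.isHer_herm ((E.map (algebraMap ℂ K)).hp c m g)) hsq hST ?_
  intro Ω _ _ _ _ hyy hnsq v hv
  obtain ⟨yy, hyy⟩ := hyy
  have hcΩ : AlgebraicIndependent ℂ fun i => algebraMap K Ω (c i) :=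
    (ind_c hc).map' (f := IsScalarTower.toAlgHom ℂ K Ω) (algebraMap K Ω).injective
  have hsΩ : (E.map (algebraMap ℂ Ω)).Sol (fun i => algebraMap K Ω (c i))
      (fun k => algebraMap K Ω (m k)) fun k => algebraMap K Ω (g k) := by
    have h1 := hs.map (algebraMap K Ω)
    have h2 : (E.map (algebraMap ℂ K)).map (algebraMap K Ω) = E.map (algebraMap ℂ Ω) :=
      map_map' (IsScalarTower.toAlgHom ℂ K Ω) E
    rwa [h2] at h1
  refine four_gen E hc hs hs' hsq' hS' hnsq (hE.e.k_ne hcΩ) (li_of_gn (hE.e.n_ne hcΩ))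
    (no_zero hsΩ (hE.e.r_ne hcΩ)) (fun b hb => ⟨side_ne hE.f hb, ?_, ?_⟩) hyy hv
  · have h1 := hE.f.k_ne hb
    unfold EDat.gk at h1
    unfold EDat.bM
    rw [EDat.swap_map]
    exact h1
  · have h1 := li_of_gn (hE.f.n_ne hb)
    unfold EDat.bM
    rw [EDat.swap_map]
    exact h1

/-- **The theorem on type E data**, with the explicit polynomial. -/
theorem DE_final (X : Cub ℂ) (E : EDat ℂ) (c : Fin 2 → K) (hn : X.NonDeg)
    (hirr : Irreducible X.F) (hE : eval E.coord DE ≠ 0)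
    (hc : IntermediateField.adjoin ℂ (Set.range c) = ⊤) (hS : SameK3 X E c)
    (hU : E.swap.Untwisted) : Pool.Agent.P28.Rational X.F := by
  obtain ⟨M, _, _, n, n', x, z, hM, hg, hG, he⟩ := hS
  obtain ⟨M', _, _, x', z', y, hM', hG', hy⟩ := hU
  exact good_final X E c hn hirr (DE_good hE) hc M n n' x z hM hg hG he M' x' z' y hM' hG' hy

end Pool.Agent.GTEX
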