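import Pool.Agent.GTE.KDefs
import Pool.Agent.GSV.Tests

/-!
# GTEX: the formulas of type E data in terms of entries, and the tests

The functions in `H` are defined for every type with addition, subtraction, multiplication and
integer constants `κ`. In a commutative ring they are the functions of `GTE`. `surfE_of`, `dE_of`,
`clsE_of`: the tests for the K3 surface, `d` and `cls` of a datum with integer coefficients.
-/

set_option autoImplicit false

noncomputable section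

namespace Pool.Agent.GTEX

open Matrix Pool.Agent.GTE Pool.Agent.GSV Pool.Agent.GSV.X3

namespace H

section

variable {A : Type} [Add A] [Sub A] [Mul A] (κ : ℤ → A)

/-- the coordinates of `h` -/
def h5 (E : EDat A) : Fin 5 → A := ![E.h 0, E.h 1, κ 0, κ 0, κ 0]

/-- the coordinates of `a` -/
def a5 (E : EDat A) (c : Fin 2 → A) (k : Fin 5) : A := E.e 0 k + c 0 * E.e 1 k + c 1 * E.e 2 k

/-- the scalar product -/
def dt (z v : Fin 5 → A) : A :=
  z 0 * (κ 2 * v 0 + v 1) + z 1 * (v 0 + κ 2 * v 1) +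
    κ 2 * (z 2 * v 2 + z 3 * v 3 + z 4 * v 4)

/-- the last diagonal entry -/
def l5 (v : Fin 5 → A) : A := κ 0 - (v 0 + v 1)

/-- the determinant -/
def d3 (v : Fin 5 → A) : A :=
  v 0 * (v 1 * l5 κ v - v 4 * v 4) - v 2 * (v 2 * l5 κ v - v 4 * v 3) +
    v 3 * (v 2 * v 4 - v 1 * v 3)

/-- the trace of `z ^ 2 x` -/
def tz (z x : Fin 5 → A) : A :=
  (z 0 * z 0 + z 2 * z 2 + z 3 * z 3) * x 0 + (z 2 * z 2 + z 1 * z 1 + z 4 * z 4) * x 1 +
    (z 3 * z 3 + z 4 * z 4 + l5 κ z * l5 κ z) * l5 κ x +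
    κ 2 * ((z 0 * z 2 + z 2 * z 1 + z 3 * z 4) * x 2 +
      (z 0 * z 3 + z 2 * z 4 + z 3 * l5 κ z) * x 3 +
      (z 2 * z 3 + z 1 * z 4 + z 4 * l5 κ z) * x 4)

/-- the number `Φ (a, h)` -/
def ah (E : EDat A) (c : Fin 2 → A) : A := E.r 0 + c 0 * E.r 1 + c 1 * E.r 2

/-- the numbers `Φ (a, f j)` -/
def af (E : EDat A) (c : Fin 2 → A) (j : Fin 3) : A :=
  E.p 0 j + c 0 * E.p 1 j + c 1 * E.p 2 j

/-- the matrix `a - x h` -/
def xp (E : EDat A) (c : Fin 2 → A) (x : A) (k : Fin 5) : A := a5 E c k - x * h5 κ E k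

/-- the equations of the surface -/
def s1 (E : EDat A) (c : Fin 2 → A) (z : Fin 5 → A) : A := dt κ z (h5 κ E) - ah E c

/-- the equations of the surface -/
def s2 (E : EDat A) (c : Fin 2 → A) (x : A) (z : Fin 5 → A) (j : Fin 3) : A :=
  dt κ z (E.f j) - (af E c j - x * E.s j)

/-- the equations of the surface -/
def s3 (E : EDat A) (c : Fin 2 → A) (x : A) (z : Fin 5 → A) : A := dt κ z (xp κ E c x)

/-- the equations of the surface -/
def s4 (E : EDat A) (c : Fin 2 → A) (x : A) (z : Fin 5 → A) : A :=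
  tz κ z (xp κ E c x) + κ 3 * d3 κ (xp κ E c x)

/-- the number `d` -/
def dd (E : EDat A) (c : Fin 2 → A) : A :=
  let a := a5 E c
  let h := h5 κ E
  let u := h 0 - h 1
  let v := h 0 - l5 κ h
  let w := h 1 - l5 κ h
  κ 4 * (u * u * (a 2 * a 2) + v * v * (a 3 * a 3) + w * w * (a 4 * a 4)) -
    dt κ h h * dt κ a a + dt κ h a * dt κ h a + ah E c * ah E c

/-- the last entry of `tri z h a` -/
def tt (E : EDat A) (c : Fin 2 → A) (z : Fin 5 → A) : A :=
  let a := a5 E c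
  let h := h5 κ E
  (z 2 * a 0 * h 1 + a 2 * z 0 * (h 1 - κ 2 * h 0)) +
    (z 1 * a 2 * (κ 2 * h 1 - h 0) - a 1 * z 2 * h 0) +
    (z 4 * a 3 * (l5 κ h + h 1 - h 0) + a 4 * z 3 * (h 1 - h 0 - l5 κ h))

/-- the number `cls` -/
def cls (E : EDat A) (c : Fin 2 → A) (x : A) (z : Fin 5 → A) : A :=
  dd κ E c * (xp κ E c x 0 * xp κ E c x 1 - xp κ E c x 2 * xp κ E c x 2) +
    tt κ E c z * tt κ E c z

end

/-! ### Commutative rings -/

section

variable {R : Type} [CommRing R] (E : EDat R) (c : Fin 2 → R) (x : R) (z : Fin 5 → R)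

theorem sym_h : E.hM = sym (h5 (G.ic R) E) := by
  unfold EDat.hM h5
  simp [G.ic]

theorem sym_a : E.aM c = sym (a5 E c) := rfl

theorem sym_x : E.aM c - x • E.hM = sym (xp (G.ic R) E c x) := by
  rw [sym_h, sym_a]
  ext i j
  fin_cases i <;> fin_cases j <;> simp [sym, xp]
  ring

theorem dt_eq (u v : Fin 5 → R) : dot (sym u) (sym v) = dt (G.ic R) u v := by
  simp [dot, Matrix.trace_fin_three, sym, dt, G.ic]
  ring

theorem d3_eq (v : Fin 5 → R) : (sym v).det = d3 (G.ic R) v := by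
  simp [Matrix.det_fin_three, sym, d3, l5, G.ic]
  ring

theorem tz_eq (u v : Fin 5 → R) : trace (sym u * sym u * sym v) = tz (G.ic R) u v := by
  simp [Matrix.trace_fin_three, sym, tz, l5, G.ic]
  ring

theorem dd_eq : E.d c = dd (G.ic R) E c := by
  unfold EDat.d
  have h1 : E.ah c = ah E c := rfl
  rw [sym_h, sym_a, h1]
  simp [kf, dot, Matrix.trace_fin_three, sym, dd, l5, dt, G.ic, h5]
  ring

theorem tt_eq : GTE.tri (sym z) E.hM (E.aM c) 2 = tt (G.ic R) E c z := by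
  rw [sym_h, sym_a]
  simp [GTE.tri, GTE.vec, sym, tt, l5, G.ic, h5]
  ring

theorem cls_eq : E.cls c x z = cls (G.ic R) E c x z := by
  unfold EDat.cls
  rw [dd_eq, tt_eq, sym_x]
  simp [sym, cls]
  ring

theorem surf_of (h1 : s1 (G.ic R) E c z = 0) (h2 : ∀ j, s2 (G.ic R) E c x z j = 0)
    (h3 : s3 (G.ic R) E c x z = 0) (h4 : s4 (G.ic R) E c x z = 0) : E.Surf c x z where
  h := by
    rw [sym_h, dt_eq]
    exact sub_eq_zero.1 h1
  f j := by
    unfold EDat.fM
    rw [dt_eq]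
    exact sub_eq_zero.1 (h2 j)
  quad := by
    rw [sym_x, dt_eq]
    exact h3
  cubic := by
    rw [sym_x, tz_eq, d3_eq]
    unfold s4 at h4
    simpa [G.ic] using h4

end

/-! ### Naturality -/

section

variable {A A' : Type} [Add A] [Sub A] [Mul A] [Add A'] [Sub A'] [Mul A'] {κ : ℤ → A}
  {κ' : ℤ → A'} {φ : A → A'} (h : G.Hm κ κ' φ)

include h

theorem h5_map (E : EDat A) (k : Fin 5) : φ (h5 κ E k) = h5 κ' (E.map φ) k := by
  fin_cases k
  · rfl
  · rfl
  · exact h.c 0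
  · exact h.c 0
  · exact h.c 0

theorem a5_map (E : EDat A) (c : Fin 2 → A) (k : Fin 5) :
    φ (a5 E c k) = a5 (E.map φ) (fun i => φ (c i)) k := by
  simp only [a5, h.add, h.mul]
  rfl

theorem dt_map (u v : Fin 5 → A) :
    φ (dt κ u v) = dt κ' (fun k => φ (u k)) fun k => φ (v k) := by
  simp only [dt, h.add, h.mul, h.c]

theorem l5_map (v : Fin 5 → A) : φ (l5 κ v) = l5 κ' fun k => φ (v k) := by
  simp only [l5, h.add, h.sub, h.c]

theorem d3_map (v : Fin 5 → A) : φ (d3 κ v) = d3 κ' fun k => φ (v k) := by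
  simp only [d3, h.add, h.sub, h.mul, l5_map h]

theorem tz_map (u v : Fin 5 → A) :
    φ (tz κ u v) = tz κ' (fun k => φ (u k)) fun k => φ (v k) := by
  simp only [tz, h.add, h.mul, h.c, l5_map h]

theorem xp_map (E : EDat A) (c : Fin 2 → A) (x : A) (k : Fin 5) :
    φ (xp κ E c x k) = xp κ' (E.map φ) (fun i => φ (c i)) (φ x) k := by
  simp only [xp, h.sub, h.mul, h5_map h, a5_map h]

theorem ah_map (E : EDat A) (c : Fin 2 → A) :
    φ (ah E c) = ah (E.map φ) fun i => φ (c i) := by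
  simp only [ah, h.add, h.mul]
  rfl

theorem af_map (E : EDat A) (c : Fin 2 → A) (j : Fin 3) :
    φ (af E c j) = af (E.map φ) (fun i => φ (c i)) j := by
  simp only [af, h.add, h.mul]
  rfl

theorem s1_map (E : EDat A) (c : Fin 2 → A) (z : Fin 5 → A) :
    φ (s1 κ E c z) = s1 κ' (E.map φ) (fun i => φ (c i)) fun k => φ (z k) := by
  simp only [s1, h.sub, dt_map h, ah_map h, h5_map h]

theorem s2_map (E : EDat A) (c : Fin 2 → A) (x : A) (z : Fin 5 → A) (j : Fin 3) :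
    φ (s2 κ E c x z j) = s2 κ' (E.map φ) (fun i => φ (c i)) (φ x) (fun k => φ (z k)) j := by
  simp only [s2, h.sub, h.mul, dt_map h, af_map h]
  rfl

theorem s3_map (E : EDat A) (c : Fin 2 → A) (x : A) (z : Fin 5 → A) :
    φ (s3 κ E c x z) = s3 κ' (E.map φ) (fun i => φ (c i)) (φ x) fun k => φ (z k) := by
  simp only [s3, dt_map h, xp_map h]

theorem s4_map (E : EDat A) (c : Fin 2 → A) (x : A) (z : Fin 5 → A) :
    φ (s4 κ E c x z) = s4 κ' (E.map φ) (fun i => φ (c i)) (φ x) fun k => φ (z k) := by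
  simp only [s4, h.add, h.mul, h.c, tz_map h, d3_map h, xp_map h]

theorem dd_map (E : EDat A) (c : Fin 2 → A) :
    φ (dd κ E c) = dd κ' (E.map φ) fun i => φ (c i) := by
  simp only [dd, h.add, h.sub, h.mul, h.c, dt_map h, l5_map h, a5_map h, h5_map h, ah_map h]

theorem tt_map (E : EDat A) (c : Fin 2 → A) (z : Fin 5 → A) :
    φ (tt κ E c z) = tt κ' (E.map φ) (fun i => φ (c i)) fun k => φ (z k) := by
  simp only [tt, h.add, h.sub, h.mul, h.c, l5_map h, a5_map h, h5_map h]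

theorem cls_map (E : EDat A) (c : Fin 2 → A) (x : A) (z : Fin 5 → A) :
    φ (cls κ E c x z) = cls κ' (E.map φ) (fun i => φ (c i)) (φ x) fun k => φ (z k) := by
  simp only [cls, h.add, h.sub, h.mul, dd_map h, tt_map h, xp_map h]

end

end H

/-! ### The tests -/

/-- the datum over `ℂ` -/
abbrev EC (E : EDat ℤ) : EDat ℂ := E.map fun a : ℤ => (a : ℂ)

section

variable {M : Type} [Field M] [Algebra TK.K M] {z : M} {d : X3}

theorem edat_map (E : EDat ℤ) (hd : X3.ev (algebraMap TK.K M (TK.var 0))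
    (algebraMap TK.K M (TK.var 1)) z d ≠ 0) :
    (EC E).map (TK.cc M) = (E.map (Fr.ic d)).map (val M z) := by
  have h : ∀ a : ℤ, TK.cc M (a : ℂ) = val M z (Fr.ic d a) := by
    intro a
    have h1 := (Fr.hm hd).c a
    rw [val]
    refine Eq.trans ?_ h1.symm
    rw [TK.cc, map_intCast, map_intCast]
  change E.map (fun a : ℤ => TK.cc M (a : ℂ)) = E.map fun a => val M z (Fr.ic d a)
  rw [funext h]

variable {F : List (List (List ℤ))}
  (hz : Fr.Root F (algebraMap TK.K M (TK.var 0)) (algebraMap TK.K M (TK.var 1)) z)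
  (hd : X3.ev (algebraMap TK.K M (TK.var 0)) (algebraMap TK.K M (TK.var 1)) z d ≠ 0)

include hz hd

theorem surfE_of {E : EDat ℤ} {c : Fin 2 → Fr d} {x : Fr d} {v : Fin 5 → Fr d} {B N : ℕ}
    (h1 : chk B N F (H.s1 (Fr.ic d) (E.map (Fr.ic d)) c v).n = true)
    (h2 : ∀ j, chk B N F (H.s2 (Fr.ic d) (E.map (Fr.ic d)) c x v j).n = true)
    (h3 : chk B N F (H.s3 (Fr.ic d) (E.map (Fr.ic d)) c x v).n = true)
    (h4 : chk B N F (H.s4 (Fr.ic d) (E.map (Fr.ic d)) c x v).n = true) :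
    ((EC E).map (TK.cc M)).Surf (fun i => val M z (c i)) (val M z x) fun k => val M z (v k) := by
  rw [edat_map E hd]
  exact H.surf_of _ _ _ _
    ((H.s1_map (Fr.hm hd) (E.map (Fr.ic d)) c v).symm.trans (Fr.zero_of h1 hz))
    (fun j => (H.s2_map (Fr.hm hd) (E.map (Fr.ic d)) c x v j).symm.trans (Fr.zero_of (h2 j) hz))
    ((H.s3_map (Fr.hm hd) (E.map (Fr.ic d)) c x v).symm.trans (Fr.zero_of h3 hz))
    ((H.s4_map (Fr.hm hd) (E.map (Fr.ic d)) c x v).symm.trans (Fr.zero_of h4 hz))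

theorem dE_of {E : EDat ℤ} {c : Fin 2 → Fr d} {T : Fr d} {B N : ℕ}
    (h : chk B N F (H.dd (Fr.ic d) (E.map (Fr.ic d)) c - T).n = true) :
    ((EC E).map (TK.cc M)).d (fun i => val M z (c i)) = val M z T := by
  rw [H.dd_eq, edat_map E hd]
  exact (H.dd_map (Fr.hm hd) (E.map (Fr.ic d)) c).symm.trans (eq_of hz hd h)

theorem clsE_of {E : EDat ℤ} {c : Fin 2 → Fr d} {x : Fr d} {v : Fin 5 → Fr d} {T : Fr d}
    {B N : ℕ} (h : chk B N F (H.cls (Fr.ic d) (E.map (Fr.ic d)) c x v - T).n = true) :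
    ((EC E).map (TK.cc M)).cls (fun i => val M z (c i)) (val M z x) (fun k => val M z (v k)) =
      val M z T := by
  rw [H.cls_eq, edat_map E hd]
  exact (H.cls_map (Fr.hm hd) (E.map (Fr.ic d)) c x v).symm.trans (eq_of hz hd h)

end

end Pool.Agent.GTEX
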