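import Pool.Agent.GSV.Irr

/-!
# GTEX: irreducible cubic polynomials over `ℂ(s, t)`, second test

`no_root_line`: a solution of `z ^ 3 = F_0 + F_1 z + F_2 z ^ 2` in `ℂ(s, t)` is in `ℂ[s, t]`, and for
`s = 0` it gives a polynomial `P` of degree at most `n`, if the degrees of `F_0`, `F_1`, `F_2` for
`s = 0` are less than `3 n + 3`, `2 n + 2`, `n + 1`. `no_root1`, `no_root2`: the cases `n = 1, 2`,
with coefficients. `exists_extN`: the extension of degree 3.
-/

set_option autoImplicit false

noncomputable section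

namespace Pool.Agent.GTEX

open Pool.Agent.TK Pool.Agent.GSV Pool.Agent.GSV.X3

/-- the polynomial in `t` for `s = 0` -/
abbrev vl (T : List (List ℤ)) : Polynomial ℂ := vx 0 Polynomial.X T

/-- no solution in `ℂ(s, t)` -/
def NoRoot (F : List (List (List ℤ))) : Prop :=
  ∀ z : TK.K, z ^ 3 ≠ vx (TK.var 0) (TK.var 1) (F.getD 0 []) +
    vx (TK.var 0) (TK.var 1) (F.getD 1 []) * z + vx (TK.var 0) (TK.var 1) (F.getD 2 []) * z ^ 2

theorem deg_hy (l : List ℤ) :
    (hy (fun a : ℤ => (a : Polynomial ℂ)) (· + ·) (· * ·) Polynomial.X l).natDegree ≤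
      l.length - 1 := by
  induction l with
  | nil => simp [hy]
  | cons a l ih =>
    rw [hy]
    refine (Polynomial.natDegree_add_le _ _).trans (max_le ?_ ?_)
    · rw [Polynomial.natDegree_intCast]
      exact Nat.zero_le _
    · rcases eq_or_ne l [] with rfl | hl
      · simp [hy]
      · refine (Polynomial.natDegree_mul_le).trans ?_
        have h1 : 0 < l.length := List.length_pos_iff.2 hl
        rw [Polynomial.natDegree_X, List.length_cons]
        omega

theorem deg_vl (T : List (List ℤ)) : (vl T).natDegree ≤ (T.getD 0 []).length - 1 := by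
  unfold vl vx
  cases T with
  | nil => simp [hx]
  | cons r T =>
    rw [hx]
    refine (Polynomial.natDegree_add_le _ _).trans (max_le ?_ ?_)
    · exact deg_hy r
    · rw [zero_mul, Polynomial.natDegree_zero]
      exact Nat.zero_le _

/-- the test for the degrees -/
def degs (F : List (List (List ℤ))) (n : ℕ) : Bool :=
  Nat.ble ((F.getD 0 []).getD 0 []).length (3 * n + 3) &&
    (Nat.ble ((F.getD 1 []).getD 0 []).length (2 * n + 2) &&
      Nat.ble ((F.getD 2 []).getD 0 []).length (n + 1))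

theorem deg_le {F : List (List (List ℤ))} {n : ℕ} (hn : degs F n = true) {P : Polynomial ℂ}
    (h : P ^ 3 = vl (F.getD 0 []) + vl (F.getD 1 []) * P + vl (F.getD 2 []) * P ^ 2) :
    P.natDegree ≤ n := by
  unfold degs at hn
  simp only [Bool.and_eq_true, Nat.ble_eq] at hn
  obtain ⟨h0, h1, h2⟩ := hn
  have k0 := deg_vl (F.getD 0 [])
  have k1 := deg_vl (F.getD 1 [])
  have k2 := deg_vl (F.getD 2 [])
  by_contra hm
  have e := congrArg Polynomial.natDegree h
  rw [Polynomial.natDegree_pow] at e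
  have e1 : (vl (F.getD 1 []) * P).natDegree ≤ (vl (F.getD 1 [])).natDegree + P.natDegree :=
    Polynomial.natDegree_mul_le
  have e2 : (vl (F.getD 2 []) * P ^ 2).natDegree ≤ (vl (F.getD 2 [])).natDegree +
      2 * P.natDegree :=
    Polynomial.natDegree_mul_le.trans (by rw [Polynomial.natDegree_pow])
  have e3 := Polynomial.natDegree_add_le (vl (F.getD 0 []) + vl (F.getD 1 []) * P)
    (vl (F.getD 2 []) * P ^ 2)
  have e4 := Polynomial.natDegree_add_le (vl (F.getD 0 [])) (vl (F.getD 1 []) * P)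
  rw [← e] at e3
  have e5 : 3 * P.natDegree ≤ max (max (vl (F.getD 0 [])).natDegree
      (vl (F.getD 1 []) * P).natDegree) (vl (F.getD 2 []) * P ^ 2).natDegree :=
    e3.trans (max_le_max_right _ e4)
  rw [le_max_iff, le_max_iff] at e5
  omega

theorem no_root_line {F : List (List (List ℤ))} {n : ℕ} (hn : degs F n = true)
    (H : ∀ P : Polynomial ℂ, P.natDegree ≤ n →
      P ^ 3 ≠ vl (F.getD 0 []) + vl (F.getD 1 []) * P + vl (F.getD 2 []) * P ^ 2) : NoRoot F := by
  intro z hz
  set R := MvPolynomial (Fin 2) ℂ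
  set f : Polynomial R := Polynomial.X ^ 3 -
    (Polynomial.C (vx (MvPolynomial.X 0) (MvPolynomial.X 1) (F.getD 2 [])) * Polynomial.X ^ 2 +
    Polynomial.C (vx (MvPolynomial.X 0) (MvPolynomial.X 1) (F.getD 1 [])) * Polynomial.X +
    Polynomial.C (vx (MvPolynomial.X 0) (MvPolynomial.X 1) (F.getD 0 []))) with hf
  have hmon : f.Monic := by
    rw [hf]
    monicity!
  have h1 : Polynomial.aeval z f = 0 := by
    rw [hf]
    simp only [map_sub, map_add, map_mul, map_pow, Polynomial.aeval_X, Polynomial.aeval_C]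
    rw [← vx_K, ← vx_K, ← vx_K, hz]
    ring
  obtain ⟨p, hp⟩ := isInteger_of_is_root_of_monic hmon h1
  have h2 : p ^ 3 = vx (MvPolynomial.X 0) (MvPolynomial.X 1) (F.getD 0 []) +
      vx (MvPolynomial.X 0) (MvPolynomial.X 1) (F.getD 1 []) * p +
      vx (MvPolynomial.X 0) (MvPolynomial.X 1) (F.getD 2 []) * p ^ 2 := by
    apply FaithfulSMul.algebraMap_injective R TK.K
    simp only [map_add, map_mul, map_pow]
    rw [← vx_K, ← vx_K, ← vx_K]
    rw [← hp] at hz
    exact hz
  set φ : R →+* Polynomial ℂ :=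
    (MvPolynomial.aeval ![(0 : Polynomial ℂ), Polynomial.X]).toRingHom with hφ
  have h3 := congrArg φ h2
  have e : ∀ T : List (List ℤ), φ (vx (MvPolynomial.X 0) (MvPolynomial.X 1) T) = vl T := by
    intro T
    rw [vx_map, hφ]
    have e0 : (MvPolynomial.aeval ![(0 : Polynomial ℂ), Polynomial.X]).toRingHom
        (MvPolynomial.X (R := ℂ) 0) = 0 := MvPolynomial.aeval_X _ _
    have e1 : (MvPolynomial.aeval ![(0 : Polynomial ℂ), Polynomial.X]).toRingHom
        (MvPolynomial.X (R := ℂ) 1) = Polynomial.X := MvPolynomial.aeval_X _ _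
    rw [e0, e1]
  rw [map_add, map_add, map_mul, map_mul, map_pow, map_pow, e, e, e] at h3
  exact H _ (deg_le hn h3) h3

theorem eval_vl (τ : ℂ) (T : List (List ℤ)) : Polynomial.eval τ (vl T) = vx 0 τ T := by
  have h := vx_map (Polynomial.evalRingHom τ) 0 Polynomial.X T
  rw [Polynomial.coe_evalRingHom, Polynomial.eval_X, Polynomial.eval_zero] at h
  exact h

theorem no_root1 {F : List (List (List ℤ))} (hn : degs F 1 = true)
    (H : ∀ a b : ℂ, (∀ τ : ℂ, (a * τ + b) ^ 3 = vx 0 τ (F.getD 0 []) +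
      vx 0 τ (F.getD 1 []) * (a * τ + b) + vx 0 τ (F.getD 2 []) * (a * τ + b) ^ 2) → False) :
    NoRoot F := by
  refine no_root_line hn fun P hP h => ?_
  obtain ⟨a, b, rfl⟩ := Polynomial.exists_eq_X_add_C_of_natDegree_le_one hP
  refine H a b fun τ => ?_
  have h1 := congrArg (Polynomial.eval τ) h
  simp only [Polynomial.eval_pow, Polynomial.eval_add, Polynomial.eval_mul, Polynomial.eval_C,
    Polynomial.eval_X, eval_vl] at h1
  exact h1

theorem no_root2 {F : List (List (List ℤ))} (hn : degs F 2 = true)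
    (H : ∀ a b c : ℂ, (∀ τ : ℂ, (a * τ ^ 2 + b * τ + c) ^ 3 = vx 0 τ (F.getD 0 []) +
      vx 0 τ (F.getD 1 []) * (a * τ ^ 2 + b * τ + c) +
      vx 0 τ (F.getD 2 []) * (a * τ ^ 2 + b * τ + c) ^ 2) → False) :
    NoRoot F := by
  refine no_root_line hn fun P hP h => ?_
  have hP' : P.degree ≤ 2 := Polynomial.degree_le_of_natDegree_le hP
  have h2 := Polynomial.eq_quadratic_of_degree_le_two hP'
  refine H (P.coeff 2) (P.coeff 1) (P.coeff 0) fun τ => ?_
  have h1 := congrArg (Polynomial.eval τ) h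
  have h3 : Polynomial.eval τ P = P.coeff 2 * τ ^ 2 + P.coeff 1 * τ + P.coeff 0 := by
    conv_lhs => rw [h2]
    simp only [Polynomial.eval_pow, Polynomial.eval_add, Polynomial.eval_mul, Polynomial.eval_C,
      Polynomial.eval_X]
  simp only [Polynomial.eval_pow, Polynomial.eval_add, Polynomial.eval_mul, eval_vl, h3] at h1
  exact h1

/-- **The extension of degree 3.** -/
theorem exists_extN {F : List (List (List ℤ))} (h : NoRoot F) :
    ∃ (M : Type) (_ : Field M) (_ : Algebra TK.K M) (z : M), Module.finrank TK.K M = 3 ∧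
      z ∉ Set.range (algebraMap TK.K M) ∧
      Fr.Root F (algebraMap TK.K M (TK.var 0)) (algebraMap TK.K M (TK.var 1)) z := by
  set a₀ := vx (TK.var 0) (TK.var 1) (F.getD 0 []) with ha0
  set a₁ := vx (TK.var 0) (TK.var 1) (F.getD 1 []) with ha1
  set a₂ := vx (TK.var 0) (TK.var 1) (F.getD 2 []) with ha2
  set f : Polynomial TK.K := Polynomial.X ^ 3 - (Polynomial.C a₂ * Polynomial.X ^ 2 +
    Polynomial.C a₁ * Polynomial.X + Polynomial.C a₀) with hf
  have hnat : f.natDegree = 3 := by
    rw [hf]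
    compute_degree!
  have hmon : f.Monic := by
    rw [hf]
    monicity!
  have hirr : Irreducible f := by
    rw [hmon.irreducible_iff_roots_eq_zero_of_degree_le_three (by omega) (by omega)]
    rw [Multiset.eq_zero_iff_forall_notMem]
    intro z hz
    rw [Polynomial.mem_roots hmon.ne_zero, Polynomial.IsRoot.def, hf] at hz
    simp only [Polynomial.eval_sub, Polynomial.eval_add, Polynomial.eval_mul, Polynomial.eval_pow,
      Polynomial.eval_X, Polynomial.eval_C] at hz
    exact h z (by linear_combination hz)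
  have hae : ∀ (M : Type) [Field M] [Algebra TK.K M] (z : M), Polynomial.aeval z f =
      z ^ 3 - (algebraMap TK.K M a₂ * z ^ 2 + algebraMap TK.K M a₁ * z + algebraMap TK.K M a₀) := by
    intro M _ _ z
    rw [hf]
    simp only [map_sub, map_add, map_mul, map_pow, Polynomial.aeval_X, Polynomial.aeval_C]
  have hfact : Fact (Irreducible f) := ⟨hirr⟩
  refine ⟨AdjoinRoot f, inferInstance, inferInstance, AdjoinRoot.root f, ?_, ?_, ?_⟩
  · rw [(AdjoinRoot.powerBasis hirr.ne_zero).finrank, AdjoinRoot.powerBasis_dim, hnat]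
  · rintro ⟨k, hk⟩
    have h1 : Polynomial.aeval (algebraMap TK.K (AdjoinRoot f) k) f = 0 := by
      rw [hk]
      exact AdjoinRoot.eval₂_root f
    rw [Polynomial.aeval_algebraMap_apply, map_eq_zero, hae TK.K k] at h1
    simp only [Algebra.algebraMap_self, RingHom.id_apply] at h1
    exact h k (by linear_combination h1)
  · have h1 : Polynomial.aeval (AdjoinRoot.root f) f = 0 := AdjoinRoot.eval₂_root f
    rw [hae (AdjoinRoot f) (AdjoinRoot.root f)] at h1
    have e : ∀ T : List (List ℤ), algebraMap TK.K (AdjoinRoot f) (vx (TK.var 0) (TK.var 1) T) =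
        vx (algebraMap TK.K (AdjoinRoot f) (TK.var 0)) (algebraMap TK.K (AdjoinRoot f) (TK.var 1))
          T := fun T => vx_map (algebraMap TK.K (AdjoinRoot f)) _ _ T
    unfold Fr.Root
    rw [← e, ← e, ← e]
    linear_combination h1

end Pool.Agent.GTEX
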