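import Pool.Agent.GTEX.IrrN
import Pool.Agent.GSE.Red

/-!
# GTEX: irreducible cubic polynomials over `ℂ(s, t)`, third test

`no_root_mod`: let `z ^ 3 - F_2 z ^ 2 - F_1 z - F_0` be `(z - c) ^ 3` modulo `p` at the point
`(s, t) = (a, b)`, and let the derivative of `F_0 + F_1 c + F_2 c ^ 2` by `t` at this point be not
divisible by `p`. Then `z ^ 3 = F_0 + F_1 z + F_2 z ^ 2` has no solution in `ℂ(s, t)`: it would be in
`B[s, t]`, `B` a valuation ring of `ℂ` in which `p` is not a unit.
-/

set_option autoImplicit false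

noncomputable section

namespace Pool.Agent.GTEX

open Pool.Agent.TK Pool.Agent.GSV Pool.Agent.GSV.X3 MvPolynomial

section

variable {R : Type} [CommRing R]

/-- the derivative of a polynomial in `t` -/
def dhy (y : R) : List ℤ → R
  | [] => 0
  | _ :: l => hy (fun a : ℤ => (a : R)) (· + ·) (· * ·) y l + y * dhy y l

/-- the derivative by `t` -/
def dhx (x y : R) : List (List ℤ) → R
  | [] => 0
  | r :: T => dhy y r + x * dhx x y T

variable {R' : Type} [CommRing R'] (φ : R →+* R')

theorem dhy_map (y : R) (l : List ℤ) : φ (dhy y l) = dhy (φ y) l := by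
  induction l with
  | nil => simp [dhy]
  | cons a l ih => rw [dhy, dhy, map_add, map_mul, ih, hy_map']

theorem dhx_map (x y : R) (T : List (List ℤ)) : φ (dhx x y T) = dhx (φ x) (φ y) T := by
  induction T with
  | nil => simp [dhx]
  | cons r T ih => rw [dhx, dhx, map_add, map_mul, ih, dhy_map]

theorem pderiv_hy (l : List ℤ) :
    pderiv 1 (hy (fun a : ℤ => (a : MvPolynomial (Fin 2) R)) (· + ·) (· * ·) (X 1) l) =
      dhy (X 1) l := by
  induction l with
  | nil => simp [hy, dhy]
  | cons a l ih =>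
    have h1 : (a : MvPolynomial (Fin 2) R) = C (a : R) := by simp
    rw [hy, dhy, map_add, h1, pderiv_C, Derivation.leibniz, ih, pderiv_X_self, smul_eq_mul,
      smul_eq_mul, mul_one]
    ring

theorem pderiv_vx (T : List (List ℤ)) :
    pderiv 1 (vx (X 0) (X 1) T : MvPolynomial (Fin 2) R) = dhx (X 0) (X 1) T := by
  unfold vx
  induction T with
  | nil => simp [hx, dhx]
  | cons r T ih =>
    rw [hx, dhx, map_add, pderiv_hy, Derivation.leibniz, ih, pderiv_X_of_ne (by decide),
      smul_eq_mul, smul_eq_mul, mul_zero, add_zero]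

end

/-- the test -/
def irrp (F : List (List (List ℤ))) (p a b c : ℤ) : Bool :=
  decide ((vx a b (F.getD 2 []) - 3 * c) % p = 0) &&
    decide ((vx a b (F.getD 1 []) + 3 * c ^ 2) % p = 0) &&
    decide ((vx a b (F.getD 0 []) - c ^ 3) % p = 0) &&
    !decide ((dhx a b (F.getD 0 []) + dhx a b (F.getD 1 []) * c +
      dhx a b (F.getD 2 []) * c ^ 2) % p = 0)

/-- the core -/
theorem no_poly {κ : Type} [Field κ] {p : ℕ} [CharP κ p] {F : List (List (List ℤ))} {a b c : ℤ}
    (h : irrp F p a b c = true) (P : MvPolynomial (Fin 2) κ)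
    (hP : P ^ 3 = vx (X 0) (X 1) (F.getD 0 []) + vx (X 0) (X 1) (F.getD 1 []) * P +
      vx (X 0) (X 1) (F.getD 2 []) * P ^ 2) : False := by
  unfold irrp at h
  simp only [Bool.and_eq_true, decide_eq_true_eq, Bool.not_eq_true', decide_eq_false_iff_not] at h
  obtain ⟨⟨⟨h2, h1⟩, h0⟩, h3⟩ := h
  have cast : ∀ T : List (List ℤ), ((vx a b T : ℤ) : κ) = vx (a : κ) (b : κ) T := fun T =>
    vx_map (Int.castRingHom κ) a b T
  have castd : ∀ T : List (List ℤ), ((dhx a b T : ℤ) : κ) = dhx (a : κ) (b : κ) T := fun T =>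
    dhx_map (Int.castRingHom κ) a b T
  have z2 := (CharP.intCast_eq_zero_iff κ p _).2 (Int.dvd_of_emod_eq_zero h2)
  have z1 := (CharP.intCast_eq_zero_iff κ p _).2 (Int.dvd_of_emod_eq_zero h1)
  have z0 := (CharP.intCast_eq_zero_iff κ p _).2 (Int.dvd_of_emod_eq_zero h0)
  have z3 : ((dhx a b (F.getD 0 []) + dhx a b (F.getD 1 []) * c +
      dhx a b (F.getD 2 []) * c ^ 2 : ℤ) : κ) ≠ 0 := by
    intro h4
    exact h3 (Int.emod_eq_zero_of_dvd ((CharP.intCast_eq_zero_iff κ p _).1 h4))
  push_cast at z0 z1 z2 z3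
  rw [cast] at z0 z1 z2
  rw [castd, castd, castd] at z3
  have hd := congrArg (pderiv 1) hP
  rw [Derivation.leibniz_pow, map_add, map_add, Derivation.leibniz, Derivation.leibniz,
    Derivation.leibniz_pow, pderiv_vx, pderiv_vx, pderiv_vx] at hd
  simp only [smul_eq_mul, nsmul_eq_mul] at hd
  have e0 := congrArg (eval ![(a : κ), (b : κ)]) hP
  have ed := congrArg (eval ![(a : κ), (b : κ)]) hd
  have ev1 : ∀ T : List (List ℤ), eval ![(a : κ), (b : κ)] (vx (X 0) (X 1) T) =
      vx (a : κ) (b : κ) T := by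
    intro T
    rw [vx_map, eval_X, eval_X]
    rfl
  have ev2 : ∀ T : List (List ℤ), eval ![(a : κ), (b : κ)] (dhx (X 0) (X 1) T) =
      dhx (a : κ) (b : κ) T := by
    intro T
    rw [dhx_map, eval_X, eval_X]
    rfl
  simp only [map_add, map_mul, map_pow, map_natCast, ev1, ev2] at e0 ed
  set q := eval ![(a : κ), (b : κ)] P
  have hq : q = c := by
    have h5 : (q - c) ^ 3 = 0 := by
      linear_combination e0 + z0 + z1 * q + z2 * q ^ 2
    exact sub_eq_zero.1 (pow_eq_zero_iff (three_ne_zero)|>.1 h5)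
  apply z3
  rw [hq] at ed
  push_cast at ed
  linear_combination -ed - z1 * eval ![(a : κ), (b : κ)] (pderiv 1 P) -
    2 * z2 * (c : κ) * eval ![(a : κ), (b : κ)] (pderiv 1 P)

/-! ### The coefficients are in the valuation ring -/

attribute [local instance] MvPolynomial.algebraMvPolynomial in
theorem coeff_mem (B : ValuationSubring ℂ) {F : List (List (List ℤ))} {P : MvPolynomial (Fin 2) ℂ}
    (hP : P ^ 3 = vx (X 0) (X 1) (F.getD 0 []) + vx (X 0) (X 1) (F.getD 1 []) * P +
      vx (X 0) (X 1) (F.getD 2 []) * P ^ 2) (m : Fin 2 →₀ ℕ) : coeff m P ∈ B := by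
  have h1 : IsIntegral (MvPolynomial (Fin 2) B) P := by
    refine ⟨Polynomial.X ^ 3 - (Polynomial.C (vx (X 0) (X 1) (F.getD 2 [])) * Polynomial.X ^ 2 +
      Polynomial.C (vx (X 0) (X 1) (F.getD 1 [])) * Polynomial.X +
      Polynomial.C (vx (X 0) (X 1) (F.getD 0 []))), by monicity!, ?_⟩
    have e : ∀ T : List (List ℤ), algebraMap (MvPolynomial (Fin 2) B) (MvPolynomial (Fin 2) ℂ)
        (vx (X 0) (X 1) T) = vx (X 0) (X 1) T := by
      intro T
      rw [vx_map, algebraMap_def, map_X, map_X]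
    rw [← Polynomial.aeval_def]
    simp only [map_sub, map_add, map_mul, map_pow, Polynomial.aeval_X, Polynomial.aeval_C, e]
    rw [hP]
    ring
  have h2 := (MvPolynomial.isIntegral_iff_isIntegral_coeff.1 h1) m
  obtain ⟨y, hy⟩ := IsIntegrallyClosed.isIntegral_iff.1 h2
  rw [← hy]
  exact y.2

/-- **No solution, by reduction modulo `p`.** -/
theorem no_root_mod {F : List (List (List ℤ))} {p : ℕ} (hp : p.Prime) {a b c : ℤ}
    (h : irrp F p a b c = true) : NoRoot F := by
  intro z hz
  set R := MvPolynomial (Fin 2) ℂ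
  set f : Polynomial R := Polynomial.X ^ 3 -
    (Polynomial.C (vx (X 0) (X 1) (F.getD 2 [])) * Polynomial.X ^ 2 +
    Polynomial.C (vx (X 0) (X 1) (F.getD 1 [])) * Polynomial.X +
    Polynomial.C (vx (X 0) (X 1) (F.getD 0 []))) with hf
  have hmon : f.Monic := by
    rw [hf]
    monicity!
  have h1 : Polynomial.aeval z f = 0 := by
    rw [hf]
    simp only [map_sub, map_add, map_mul, map_pow, Polynomial.aeval_X, Polynomial.aeval_C]
    rw [← vx_K, ← vx_K, ← vx_K, hz]
    ring
  obtain ⟨P, hP⟩ := isInteger_of_is_root_of_monic hmon h1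
  have h2 : P ^ 3 = vx (X 0) (X 1) (F.getD 0 []) + vx (X 0) (X 1) (F.getD 1 []) * P +
      vx (X 0) (X 1) (F.getD 2 []) * P ^ 2 := by
    apply FaithfulSMul.algebraMap_injective R TK.K
    simp only [map_add, map_mul, map_pow]
    rw [← vx_K, ← vx_K, ← vx_K]
    rw [← hP] at hz
    exact hz
  obtain ⟨B, hB⟩ := GSE.exists_val p hp
  obtain ⟨Q, hQ⟩ : ∃ Q : MvPolynomial (Fin 2) B, map B.subtype Q = P := by
    have h3 : P ∈ Set.range (map (σ := Fin 2) B.subtype) := by
      rw [mem_range_map_iff_coeffs_subset]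
      intro x hx
      obtain ⟨m, -, rfl⟩ := (mem_coeffs_iff).1 hx
      exact ⟨⟨_, coeff_mem B h2 m⟩, rfl⟩
    exact h3
  have h3 : Q ^ 3 = vx (X 0) (X 1) (F.getD 0 []) + vx (X 0) (X 1) (F.getD 1 []) * Q +
      vx (X 0) (X 1) (F.getD 2 []) * Q ^ 2 := by
    apply map_injective B.subtype B.subtype_injective
    simp only [map_add, map_mul, map_pow, vx_map, map_X, hQ]
    exact h2
  have hp0 : (p : IsLocalRing.ResidueField B) = 0 := by
    have h4 : (p : B) ∈ IsLocalRing.maximalIdeal B := by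
      have hB' : (p : ℂ) ∈ (B.nonunits : Set ℂ) := hB
      rw [← ValuationSubring.image_maximalIdeal] at hB'
      obtain ⟨b, hb, hb'⟩ := hB'
      have h5 : b = (p : B) := B.subtype_injective (by
        rw [map_natCast]
        exact hb')
      rw [← h5]
      exact hb
    have h5 := (IsLocalRing.residue_eq_zero_iff (p : B)).2 h4
    rw [map_natCast] at h5
    exact h5
  have hC : CharP (IsLocalRing.ResidueField B) p := (CharP.charP_iff_prime_eq_zero hp).2 hp0
  refine no_poly h (map (IsLocalRing.residue B) Q) ?_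
  have h4 := congrArg (map (IsLocalRing.residue B)) h3
  simpa only [map_add, map_mul, map_pow, vx_map, map_X] using h4

end Pool.Agent.GTEX
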