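import Pool.Agent.GTEX.ExX

/-!
# GTEX: the cubic form of `CX` is irreducible
-/

set_option autoImplicit false

noncomputable section

namespace Pool.Agent.GTEX

open MvPolynomial Pool.Agent.TK

private theorem sup {j : Fin 6} {P : MvPolynomial (Fin 6) ℂ}
    (h : P ∈ supported ℂ ({j}ᶜ : Set (Fin 6))) : j ∉ P.vars :=
  fun h3 => mem_supported.1 h h3 rfl

theorem G5_irr : Irreducible (3 * X 0 ^ 2 + 2 * (X 0 * X 1) + 2 * (X 0 * X 3) - X 1 ^ 2 :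
    MvPolynomial (Fin 6) ℂ) := by
  have h1 : (3 * X 0 ^ 2 + 2 * (X 0 * X 1) + 2 * (X 0 * X 3) - X 1 ^ 2 : MvPolynomial (Fin 6) ℂ) =
      (2 * X 0) * X 3 + (3 * X 0 ^ 2 + 2 * (X 0 * X 1) - X 1 ^ 2) := by ring
  have hX : ∀ i : Fin 6, i ≠ 3 → (X i : MvPolynomial (Fin 6) ℂ) ∈
      supported ℂ ({3}ᶜ : Set (Fin 6)) := fun i hi => X_mem_supported.2 hi
  have h0 := hX 0 (by decide)
  have h1' := hX 1 (by decide)
  have h2' : (2 : MvPolynomial (Fin 6) ℂ) ∈ supported ℂ ({3}ᶜ : Set (Fin 6)) := natCast_mem _ 2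
  have h3' : (3 : MvPolynomial (Fin 6) ℂ) ∈ supported ℂ ({3}ᶜ : Set (Fin 6)) := natCast_mem _ 3
  rw [h1]
  apply irreducible_mul_X_add
  · exact mul_ne_zero two_ne_zero (X_ne_zero 0)
  · exact sup (mul_mem h2' h0)
  · exact sup (sub_mem (add_mem (mul_mem h3' (pow_mem h0 2)) (mul_mem h2' (mul_mem h0 h1')))
      (pow_mem h1' 2))
  · have h4 : ¬ (X 0 : MvPolynomial (Fin 6) ℂ) ∣ 3 * X 0 ^ 2 + 2 * (X 0 * X 1) - X 1 ^ 2 := by
      rintro ⟨q, hq⟩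
      have h := congrArg (eval (![0, 1, 0, 0, 0, 0] : Fin 6 → ℂ)) hq
      simp at h
    have h5 : IsRelPrime (X 0 : MvPolynomial (Fin 6) ℂ) (3 * X 0 ^ 2 + 2 * (X 0 * X 1) - X 1 ^ 2) :=
      (X_prime (i := 0)).irreducible.isRelPrime_iff_not_dvd.2 h4
    have hu : IsUnit (2 : MvPolynomial (Fin 6) ℂ) := by
      have h6 := (IsUnit.mk0 (2 : ℂ) two_ne_zero).map (C (σ := Fin 6))
      rwa [map_ofNat] at h6
    exact (IsRelPrime.mul_left_iff.2 ⟨hu.isRelPrime_left, h5⟩)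

theorem CX_irr : Irreducible (CX ℂ).F := by
  rw [CX_F]
  have hX : ∀ i : Fin 6, i ≠ 5 → (X i : MvPolynomial (Fin 6) ℂ) ∈
      supported ℂ ({5}ᶜ : Set (Fin 6)) := fun i hi => X_mem_supported.2 hi
  have h0 := hX 0 (by decide)
  have h1 := hX 1 (by decide)
  have h2 := hX 2 (by decide)
  have h3 := hX 3 (by decide)
  have h4 := hX 4 (by decide)
  have hn : ∀ n : ℕ, ((n : ℕ) : MvPolynomial (Fin 6) ℂ) ∈ supported ℂ ({5}ᶜ : Set (Fin 6)) :=
    fun n => natCast_mem _ n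
  have e2 := hn 2
  have e3 := hn 3
  have e4 := hn 4
  push_cast at e2 e3 e4
  apply irreducible_mul_X_add
  · exact G5_irr.ne_zero
  · exact sup (sub_mem (add_mem (add_mem (mul_mem e3 (pow_mem h0 2)) (mul_mem e2 (mul_mem h0 h1)))
      (mul_mem e2 (mul_mem h0 h3))) (pow_mem h1 2))
  · exact sup (sub_mem (neg_mem (mul_mem h2 (add_mem (add_mem (add_mem (pow_mem h1 2)
      (mul_mem e2 (mul_mem h0 h1))) (mul_mem e2 (mul_mem h1 h3))) (pow_mem h3 2))))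
      (mul_mem h4 (add_mem (add_mem (add_mem (pow_mem h1 2) (mul_mem e3 (pow_mem h3 2)))
        (mul_mem e4 (mul_mem h0 h3))) (mul_mem e2 (mul_mem h1 h3)))))
  · refine G5_irr.isRelPrime_iff_not_dvd.2 ?_
    rintro ⟨q, hq⟩
    have h := congrArg (eval (![0, 0, 1, 1, 0, 0] : Fin 6 → ℂ)) hq
    simp at h

end Pool.Agent.GTEX
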