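import Mathlib

/-!
# GTEX: the extension generated by a cube root

`exists_kum`: if `u` is not a cube in the field `K`, there is an extension `M` of degree 3 which is
generated by an element `ξ` with `ξ ^ 3 = u`; `1, ξ, ξ ^ 2` are linearly independent.
-/

set_option autoImplicit false

noncomputable section

namespace Pool.Agent.GTEX

open Polynomial

variable {K : Type} [Field K]

/-- an element `ξ` of an extension `M` of degree 3 with `ξ ^ 3 = u` which generates `M` -/
structure Kum (K M : Type) [Field K] [Field M] [Algebra K M] (u : K) where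
  /-- the element -/
  ξ : M
  fin : Module.finrank K M = 3
  cube : ξ ^ 3 = algebraMap K M u
  top : IntermediateField.adjoin K {ξ} = ⊤
  li : ∀ a b c : K, algebraMap K M a + algebraMap K M b * ξ + algebraMap K M c * ξ ^ 2 = 0 →
    a = 0 ∧ b = 0 ∧ c = 0

theorem exists_kum (u : K) (hu : ∀ b : K, b ^ 3 ≠ u) :
    ∃ (M : Type) (_ : Field M) (_ : Algebra K M), Nonempty (Kum K M u) := by
  have hirr : Irreducible (X ^ 3 - C u : K[X]) := X_pow_sub_C_irreducible_of_prime
    Nat.prime_three hu
  have : Fact (Irreducible (X ^ 3 - C u : K[X])) := ⟨hirr⟩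
  have hdeg : (X ^ 3 - C u : K[X]).natDegree = 3 := natDegree_X_pow_sub_C
  have hmon : (X ^ 3 - C u : K[X]).Monic := monic_X_pow_sub_C u three_ne_zero
  set M := AdjoinRoot (X ^ 3 - C u : K[X]) with hMdef
  set pb := AdjoinRoot.powerBasis hirr.ne_zero with hpb
  have hd : pb.dim = 3 := by
    rw [hpb, AdjoinRoot.powerBasis_dim, hdeg]
  have hg : pb.gen = AdjoinRoot.root (X ^ 3 - C u : K[X]) := AdjoinRoot.powerBasis_gen _
  refine ⟨M, inferInstance, inferInstance, ⟨⟨AdjoinRoot.root _, ?_, ?_, ?_, ?_⟩⟩⟩
  · rw [pb.finrank, hd]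
  · have h := AdjoinRoot.eval₂_root (X ^ 3 - C u : K[X])
    rw [eval₂_sub, eval₂_pow, eval₂_X, eval₂_C, sub_eq_zero] at h
    exact h
  · rw [eq_top_iff]
    intro x _
    have h1 := AdjoinRoot.adjoinRoot_eq_top (R := K) (f := (X ^ 3 - C u : K[X]))
    have h2 : x ∈ Algebra.adjoin K {AdjoinRoot.root (X ^ 3 - C u : K[X])} := by
      rw [h1]
      trivial
    exact IntermediateField.algebra_adjoin_le_adjoin K _ h2
  · intro a b c h
    have h1 := pb.basis.linearIndependent
    have h2 := Fintype.linearIndependent_iff.1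
      ((linearIndependent_equiv (finCongr hd).symm).2 h1) ![a, b, c] (by
        rw [Fin.sum_univ_three]
        simp only [Function.comp_apply, pb.basis_eq_pow, hg]
        simp only [Matrix.cons_val_zero, Matrix.cons_val_one, Matrix.cons_val, Algebra.smul_def]
        refine Eq.trans ?_ h
        have e0 : (((finCongr hd).symm 0 : Fin pb.dim) : ℕ) = 0 := rfl
        have e1 : (((finCongr hd).symm 1 : Fin pb.dim) : ℕ) = 1 := rfl
        have e2 : (((finCongr hd).symm 2 : Fin pb.dim) : ℕ) = 2 := rfl
        rw [e0, e1, e2, pow_zero, pow_one, mul_one])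
    exact ⟨h2 0, h2 1, h2 2⟩

section

variable {M : Type} [Field M] [Algebra K M] {u : K} (k : Kum K M u)

include k in
theorem Kum.ne (a b c : K) (h : a ≠ 0 ∨ b ≠ 0 ∨ c ≠ 0) :
    algebraMap K M a + algebraMap K M b * k.ξ + algebraMap K M c * k.ξ ^ 2 ≠ 0 := by
  intro h0
  obtain ⟨h1, h2, h3⟩ := k.li a b c h0
  rcases h with h | h | h
  · exact h h1
  · exact h h2
  · exact h h3

/-- if `ξ` is in the field generated by `S`, the field is `M` -/
theorem Kum.top_of {S : Set M} (h : k.ξ ∈ IntermediateField.adjoin K S) :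
    IntermediateField.adjoin K S = ⊤ := by
  rw [eq_top_iff, ← k.top]
  exact IntermediateField.adjoin_le_iff.2 (Set.singleton_subset_iff.2 h)

end

end Pool.Agent.GTEX
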