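import Pool.Agent.GTEX.Final

/-!
# GTEX: how to check that a rational datum is in general position

`GG_num`: the conditions for the 8 polynomials of one side, with the solutions `m`, `g` of the linear
systems at the parameters 0. `DE_num`: the 17 polynomials of a datum with integer coefficients.
-/

set_option autoImplicit false

noncomputable section

namespace Pool.Agent.GTEX

open MvPolynomial Matrix Pool.Agent.TK Pool.Agent.GTE

/-- The conditions on the solutions. -/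
structure NumOk {R : Type} [CommRing R] (E : EDat R) (m g : Fin 5 → R)
    (N : Matrix (Fin 5) (Fin 5) R) : Prop where
  inv : E.sysM 0 * N = 1
  sm : E.sysM 0 *ᵥ m = E.rhm 0
  sg : E.sysM 0 *ᵥ g = E.rhg 0
  k : E.gk 0 ≠ 0
  n : E.gn 0 ≠ 0
  r : (bez (cub1 E.h5 (E.a5 0)) (cub2 E.h5 (E.a5 0) (tri (sym m) E.hM (E.aM 0))
    (tri (sym g) E.hM (E.aM 0)))).det ≠ 0
  c : E.d 0 * (E.aM 0 0 0 * E.aM 0 1 1 - E.aM 0 0 1 ^ 2) +
    tri (sym g) E.hM (E.aM 0) 2 ^ 2 ≠ 0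
  p : E.d 0 * (E.h 0 * E.h 1) + tri (sym m) E.hM (E.aM 0) 2 ^ 2 ≠ 0
  q : trace (sym m * sym m * E.hM) + 3 * E.hM.det ≠ 0
  s : E.gs ≠ 0

theorem GG_num {R : Type} [Field R] {E : EDat R} {m g : Fin 5 → R}
    {N : Matrix (Fin 5) (Fin 5) R} (h : NumOk E m g N) (i : Fin 8) : GG i R E 0 ≠ 0 := by
  have hd : (E.sysM 0).det ≠ 0 := by
    intro h0
    have h1 := congrArg Matrix.det h.inv
    rw [Matrix.det_mul, h0, zero_mul, Matrix.det_one] at h1
    exact zero_ne_one h1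
  have hs : E.Sol 0 m g := EDat.sol_of_sys h.sm h.sg
  fin_cases i
  · exact h.k
  · exact h.n
  · exact hd
  · change E.gr 0 ≠ 0
    unfold EDat.gr
    rw [hs.mt_eq, hs.gt_eq, tri_smul, tri_smul, cub2_smul, bez_smul]
    exact mul_ne_zero (pow_ne_zero _ (pow_ne_zero _ hd)) h.r
  · change E.gc 0 ≠ 0
    unfold EDat.gc
    rw [hs.gt_eq, tri_smul]
    have h1 : (E.sysM 0).det ^ 2 * (E.d 0 * (E.aM 0 0 0 * E.aM 0 1 1 - E.aM 0 0 1 ^ 2)) +
        ((E.sysM 0).det * tri (sym g) E.hM (E.aM 0) 2) ^ 2 = (E.sysM 0).det ^ 2 *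
        (E.d 0 * (E.aM 0 0 0 * E.aM 0 1 1 - E.aM 0 0 1 ^ 2) +
          tri (sym g) E.hM (E.aM 0) 2 ^ 2) := by ring
    rw [h1]
    exact mul_ne_zero (pow_ne_zero _ hd) h.c
  · change E.gp 0 ≠ 0
    unfold EDat.gp
    rw [hs.mt_eq, tri_smul]
    have h1 : (E.sysM 0).det ^ 2 * (E.d 0 * (E.h 0 * E.h 1)) +
        ((E.sysM 0).det * tri (sym m) E.hM (E.aM 0) 2) ^ 2 = (E.sysM 0).det ^ 2 *
        (E.d 0 * (E.h 0 * E.h 1) + tri (sym m) E.hM (E.aM 0) 2 ^ 2) := by ring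
    rw [h1]
    exact mul_ne_zero (pow_ne_zero _ hd) h.p
  · change E.gq 0 ≠ 0
    unfold EDat.gq
    have h1 : sym (fun k => (E.sysM 0).det * m k) = (E.sysM 0).det • sym m := by
      ext i j
      fin_cases i <;> fin_cases j <;> simp [sym]
      ring
    rw [hs.mt_eq, h1, Matrix.smul_mul, Matrix.smul_mul, Matrix.mul_smul, Matrix.smul_mul,
      Matrix.trace_smul, Matrix.trace_smul, smul_eq_mul, smul_eq_mul]
    have h2 : (E.sysM 0).det * ((E.sysM 0).det * trace (sym m * sym m * E.hM)) +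
        (E.sysM 0).det ^ 2 * (3 * E.hM.det) = (E.sysM 0).det ^ 2 *
        (trace (sym m * sym m * E.hM) + 3 * E.hM.det) := by ring
    rw [h2]
    exact mul_ne_zero (pow_ne_zero _ hd) h.q
  · exact h.s

/-- the datum over `ℚ` -/
abbrev EQ (E : EDat ℤ) : EDat ℚ := E.map fun a : ℤ => (a : ℚ)

theorem DE_num {E : EDat ℤ} {m g m' g' : Fin 5 → ℚ} {N N' : Matrix (Fin 5) (Fin 5) ℚ}
    (h : NumOk (EQ E) m g N) (h' : NumOk (EQ E).swap m' g' N') (hK : (EQ E).gK 0 ≠ 0) :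
    eval (E.map fun a : ℤ => (a : ℂ)).coord DE ≠ 0 := by
  have h1 : (E.map fun a : ℤ => (a : ℂ)) = (EQ E).map (algebraMap ℚ ℂ) := by
    change E.map (fun a : ℤ => (a : ℂ)) = E.map fun a : ℤ => algebraMap ℚ ℂ (a : ℚ)
    simp only [map_intCast]
  have h0 : ∀ n : ℕ, (fun i => algebraMap ℚ ℂ ((0 : Fin n → ℚ) i)) = 0 := by
    intro n
    funext i
    simp
  rw [h1]
  refine DE_eval_ne (fun i => ?_) (fun i => ?_) ?_
  · have h2 := GG_map i ℚ ℂ (algebraMap ℚ ℂ) (EQ E) 0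
    rw [h0] at h2
    rw [h2]
    exact (map_ne_zero _).2 (GG_num h i)
  · have h2 := GG_map i ℚ ℂ (algebraMap ℚ ℂ) (EQ E).swap 0
    rw [h0, ← EDat.swap_map] at h2
    rw [h2]
    exact (map_ne_zero _).2 (GG_num h' i)
  · have h2 := EDat.gK_map (algebraMap ℚ ℂ) (EQ E) 0
    rw [h0] at h2
    rw [h2]
    exact (map_ne_zero _).2 hK

end Pool.Agent.GTEX
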