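import Pool.Agent.GSV.Tests

/-!
# GTEX: cubic fourfolds with integer coefficients in the coordinates `X0, X1, X2, i X3, i X4, X5`

`twX D`: the matrices `A_3`, `A_4`, `B_3`, `B_4` are `i` times integral. `surfT_of`: the test for the
K3 surface. In the coordinates `i X3`, `i X4` the cubic form is
`pᵀ adj(A) p + qᵀ adj(B) q + λ (det A - det B)`.
-/

set_option autoImplicit false

noncomputable section

namespace Pool.Agent.GTEX

open Matrix Pool.Agent.TK Pool.Agent.GSV Pool.Agent.GSV.X3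
open scoped Quaternion

/-- the weights of the coordinates -/
def wt : Fin 6 → ℂ := ![1, 1, 1, Complex.I, Complex.I, 1]

/-- the cubic fourfold -/
def twX (D : Cub ℤ) : Cub ℂ := ⟨fun k i => wt k * D.a k i, fun k i => wt k * D.b k i⟩

/-- the cubic equation in the other coordinates -/
def cuT {A : Type} [Add A] [Sub A] [Mul A] (κ : ℤ → A) (X : Cub A) (n n' : Fin 3 → A) : A :=
  κ 4 * (G.gg κ X n n' 5 * G.d2 n) + G.a2 κ n (G.gg κ X n n' 1) (G.gg κ X n n' 2) +
    G.a2 κ n' (G.gg κ X n n' 3) (G.gg κ X n n' 4)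

theorem gg_ic {R : Type} [CommRing R] (X : Cub R) (n n' : Fin 3 → R) (k : Fin 6) :
    G.gg (G.ic R) X n n' k = X.gg n n' k := by
  simp only [G.gg, G.tr2, Cub.gg, tr2, G.ic]
  push_cast
  ring

theorem cuT_ic {R : Type} [CommRing R] (X : Cub R) (n n' : Fin 3 → R) :
    cuT (G.ic R) X n n' = 4 * X.gg n n' 5 * det2 n + adj2 n (X.gg n n' 1) (X.gg n n' 2) +
      adj2 n' (X.gg n n' 3) (X.gg n n' 4) := by
  simp only [cuT, gg_ic, G.a2, G.d2, det2, adj2, G.ic]
  push_cast
  ring

theorem adj2_mul {R : Type} [CommRing R] (n : Fin 3 → R) (a x y : R) :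
    adj2 n (a * x) (a * y) = a ^ 2 * adj2 n x y := by
  simp only [adj2]
  ring

section

variable {M : Type} [Field M] [Algebra K M]

theorem cc_mul (a b : ℂ) : cc M (a * b) = cc M a * cc M b := by
  simp only [cc, map_mul]

theorem cc_one : cc M 1 = 1 := by
  simp only [cc, map_one]

theorem cc_I2 : cc M Complex.I ^ 2 = -1 := by
  have h := cc_mul (M := M) Complex.I Complex.I
  rw [pow_two, ← h, Complex.I_mul_I]
  simp only [cc, map_neg, map_one]

theorem gg_twX (D : Cub ℤ) (n n' : Fin 3 → M) (k : Fin 6) :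
    ((twX D).map (cc M)).gg n n' k = cc M (wt k) * ((XC D).map (cc M)).gg n n' k := by
  simp only [Cub.gg, tr2, Cub.map, twX, cc_mul]
  ring

variable {z : M} {d : X3} {F : List (List (List ℤ))}
  (hz : Fr.Root F (algebraMap TK.K M (TK.var 0)) (algebraMap TK.K M (TK.var 1)) z)
  (hd : X3.ev (algebraMap TK.K M (TK.var 0)) (algebraMap TK.K M (TK.var 1)) z d ≠ 0)

include hz hd

theorem surfT_of {X : Cub ℤ} {n n' : Fin 3 → Fr d} {B N : ℕ}
    (h0 : chk B N F (G.gg (Fr.ic d) (X.map (Fr.ic d)) n n' 0).n = true)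
    (h1 : chk B N F (G.d2 n - G.d2 n').n = true)
    (h2 : chk B N F (cuT (Fr.ic d) (X.map (Fr.ic d)) n n').n = true) :
    ((twX X).map (cc M)).Surf (fun i => val M z (n i)) (fun i => val M z (n' i)) := by
  have hm := Fr.hm hd
  have e0 : G.gg (G.ic M) ((XC X).map (cc M)) (fun i => val M z (n i)) (fun i => val M z (n' i)) 0 =
      0 := by
    rw [cub_map X hd]
    exact (hm.gg (X.map (Fr.ic d)) n n' 0).symm.trans (Fr.zero_of h0 hz)
  have e1 : G.d2 (fun i => val M z (n i)) = G.d2 fun i => val M z (n' i) :=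
    (hm.d2 n).symm.trans ((eq_of hz hd h1).trans (hm.d2 n'))
  have e2 : cuT (G.ic M) ((XC X).map (cc M)) (fun i => val M z (n i)) (fun i => val M z (n' i)) =
      0 := by
    rw [cub_map X hd]
    refine Eq.trans ?_ (Fr.zero_of h2 hz)
    have f1 : ∀ k, G.gg (G.ic M) ((X.map (Fr.ic d)).map (val M z)) (fun i => val M z (n i))
      (fun i => val M z (n' i)) k = val M z (G.gg (Fr.ic d) (X.map (Fr.ic d)) n n' k) :=
      fun k => (hm.gg (X.map (Fr.ic d)) n n' k).symm
    have f2 : G.d2 (fun i => val M z (n i)) = val M z (G.d2 n) := (hm.d2 n).symm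
    have f3 : ∀ a : ℤ, G.ic M a = val M z (Fr.ic d a) := fun a => (hm.c a).symm
    have f4 : ∀ (v : Fin 3 → Fr d) (x y : Fr d), G.a2 (G.ic M) (fun i => val M z (v i))
        (val M z x) (val M z y) = val M z (G.a2 (Fr.ic d) v x y) := by
      intro v x y
      simp only [G.a2, f3]
      simp only [val, hm.add, hm.sub, hm.mul]
    unfold cuT
    rw [f1, f1, f1, f1, f1, f2, f4, f4, f3]
    simp only [val, hm.add, hm.mul]
  have g0 : wt 0 = 1 := rfl
  have g1 : wt 1 = 1 := rfl
  have g2 : wt 2 = 1 := rfl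
  have g3 : wt 3 = Complex.I := rfl
  have g4 : wt 4 = Complex.I := rfl
  have g5 : wt 5 = 1 := rfl
  have hi := cc_I2 (M := M)
  rw [cuT_ic] at e2
  rw [gg_ic] at e0
  constructor
  · rw [gg_twX, g0, cc_one, one_mul, e0]
  · simpa [det2, G.d2, pow_two] using e1
  · rw [gg_twX, gg_twX, gg_twX, gg_twX, gg_twX, g1, g2, g3, g4, g5, cc_one, one_mul, one_mul, one_mul,
      adj2_mul, hi]
    linear_combination e2

end

end Pool.Agent.GTEX
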