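import Pool.Agent.GTEX.Form
import Pool.Agent.GTEX.Tw

/-!
# GTEX: a smooth cubic fourfold and a type E datum with the same twisted K3 surface, the data

`XS`: the integers of the cubic fourfold `twX XS`. `ES`: the type E datum. `F`: the cubic equation of
the function field of the K3 surface, `z = 24 n_01`. `n`, `n'`: the point of the K3 surface of the
cubic fourfold, `x`, `v`: the point of the K3 surface of the datum with the parameters `c = (s, t - 1)`,
`q`, `cl`: the numbers `d` and `cls`.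
-/

set_option autoImplicit false

namespace Pool.Agent.GTEX.S

open Pool.Agent.TK Pool.Agent.GTE Pool.Agent.GSV Pool.Agent.GSV.X3

/-- the cubic equation -/
def F : List (List (List ℤ)) := [[[0, 1728, 3024, -324, -1620], [0, 2304, 4608, -972], [-3264,
    2112, 4176], [-3968, 2880], [-864]], [[0, 144, 144, -162], [-288, 216, 360], [-624, 564],
    [-144]], [[-12, -6], [-36, 27], [-6]]]

/-- the denominator -/
def d : X3 := X3.c 24

/-- the integers of the cubic fourfold -/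
def XS : Cub ℤ := ⟨![![6, 1, 6], ![-1, -1, -2], ![2, 0, 0], ![3, 0, 0], ![5, 1, 2], ![-5, -3,
    -6]], ![![-6, -1, 6], ![-1, 1, -2], ![-2, 0, 0], ![-1, -1, 0], ![-5, 1, 0], ![5, -3, 9]]⟩

/-- the point of the first surface -/
def n : Fin 3 → Fr d := ![⟨tb [[[0, 12, 12], [0, -4], [-24]], [[], [-2]]], 1⟩, ⟨tb [[], [[1]]],
    1⟩, ⟨tb [[[12, -12], [4]]], 1⟩]

/-- the point of the first surface -/
def n' : Fin 3 → Fr d := ![⟨tb [[[0, 12, -12], [0, 4], [24]], [[], [2]]], 1⟩, ⟨tb [[[], [-24]],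
    [[-1]]], 1⟩, ⟨tb [[[12, 12], [-4]]], 1⟩]

/-- the type E datum -/
def ES : EDat ℤ := ⟨![0, 1], ![![-12, 0, -12, 3, 9], ![0, 0, -8, -4, 0], ![0, 0, -12, 3, 9]],
    ![![0, 0, -2, 0, -2], ![0, 0, 2, 3, -1], ![0, 0, 4, -1, -3]], ![![-108, -108, 0], ![24, 24,
    0], ![-36, -108, -72]], ![-18, 6, -18], ![6, 0, -6]⟩

/-- the parameters -/
def c : Fin 2 → Fr d := ![⟨X3.s, 0⟩, ⟨X3.sub X3.t (X3.c 1), 0⟩]

/-- the point of the second surface -/
def x : Fr d := ⟨tb [[[12, 12], [24]], [[2]]], 0⟩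

/-- the point of the second surface -/
def v : Fin 5 → Fr d := ![⟨tb [[[0, -6, 12], [-22, -4], [-24]], [[], [-2]]], 0⟩, ⟨tb [[[0, -6,
    -6], [14, 2], [12]], [[], [1]]], 0⟩, ⟨tb [[[24, 9], [22]], [[2]]], 0⟩, ⟨tb [[[-12, -18],
    [-8]], [[-1]]], 0⟩, ⟨tb [[[12, 18], [8]], [[1]]], 0⟩]

/-- the number `d` -/
def q : Fr d := ⟨tb [[[-432, 0, 1296], [0, -216], [36]]], 0⟩

/-- the number `cls` -/
def cl : Fr d := ⟨tb [[[20736, 124416, 416016, 256608, -174960], [27648, 264384, 445824, -202176],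
    [130176, 12096, -31104], [35712, 13824]], [[3456, 25920, 47952, 3888], [12672, 7776, 2592],
    [3168, 1728]], [[576, 864, 324]]], 0⟩

end Pool.Agent.GTEX.S
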