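import Pool.Agent.GTEX.Num
import Pool.Agent.GTEX.SDat

/-!
# GTEX: the smooth example, the type E datum is in general position
-/

set_option autoImplicit false

noncomputable section

namespace Pool.Agent.GTEX.S

open Matrix Pool.Agent.GTE

theorem num_e : NumOk (EQ ES) ![0, 0, -1, 1 / 2, -1 / 2] ![6, -12, 9, -18, 18]
    !![-1 / 3, 0, 0, -1 / 6, -1 / 18; 2 / 3, 0, 0, 1 / 12, 1 / 36; 0, -5 / 48, 1 / 48, 1 / 16, 0;
      0, 1 / 48, 7 / 48, -1 / 16, 0; 0, -7 / 48, -1 / 48, -1 / 16, 0] where
  inv := by decide +kernel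
  sm := by decide +kernel
  sg := by decide +kernel
  k := by decide +kernel
  n := by decide +kernel
  r := by decide +kernel
  c := by decide +kernel
  p := by decide +kernel
  q := by decide +kernel
  s := by decide +kernel

theorem num_f : NumOk (EQ ES).swap ![0, 0, -3 / 4, 9 / 4, -3 / 4] ![-2, -2, -1 / 3, 11 / 3, 1 / 3]
    !![-1 / 3, -1 / 18, 0, 1 / 18, 0; 2 / 3, 1 / 36, 0, -1 / 36, 0; 0, 0, -1 / 72, -1 / 54, -1 /
      12; 0, 0, -7 / 72, 1 / 27, 1 / 6; 0, 0, 1 / 72, 1 / 54, -1 / 6] where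
  inv := by decide +kernel
  sm := by decide +kernel
  sg := by decide +kernel
  k := by decide +kernel
  n := by decide +kernel
  r := by decide +kernel
  c := by decide +kernel
  p := by decide +kernel
  q := by decide +kernel
  s := by decide +kernel

theorem num_K : (EQ ES).gK 0 ≠ 0 := by decide +kernel

theorem de_ne : MvPolynomial.eval (ES.map fun a : ℤ => (a : ℂ)).coord DE ≠ 0 :=
  DE_num num_e num_f num_K

end Pool.Agent.GTEX.S
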