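import Pool.Agent.GTEX.Form
import Pool.Agent.GSV.XD
import Pool.Agent.GSV.Irr

/-!
# GTEX: data with an isotropic vector

`untw_of`: if the first diagonal entries of `h` and of the matrices `e i` are zero, the quaternion
algebra of the datum is split. `genE`: `EDat.Gen` from the equations.
-/

set_option autoImplicit false

noncomputable section

namespace Pool.Agent.GTEX

open Matrix Pool.Agent.TK Pool.Agent.GTE

theorem untw_of {E : EDat ℂ} (h0 : E.h 0 = 0) (he : ∀ i, E.e i 0 = 0) {M : Type} [Field M]
    [Algebra K M] (hM : Module.finrank K M = 3) {x : M} {z : Fin 5 → M} (hG : E.Gen var x z) :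
    E.Untwisted := by
  refine ⟨M, inferInstance, inferInstance, x, z, ![GTE.tri (sym z) (E.map (cc M)).hM
    ((E.map (cc M)).aM fun i => algebraMap K M (var i)) 2,
    ((E.map (cc M)).aM (fun i => algebraMap K M (var i)) - x • (E.map (cc M)).hM) 0 1], hM, hG, ?_⟩
  have h1 : ((E.map (cc M)).aM (fun i => algebraMap K M (var i)) - x • (E.map (cc M)).hM) 0 0 =
      0 := by
    simp [EDat.aM, EDat.hM, sym, EDat.map, h0, he, cc]
  unfold EDat.cls
  rw [h1]
  simp only [Matrix.cons_val_zero, Matrix.cons_val_one]
  ring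

/-- **The point of the K3 surface of the datum.** -/
theorem genE {E : EDat ℂ} {c : Fin 2 → K} {M : Type} [Field M] [Algebra K M] {x : M}
    {z : Fin 5 → M} (hM : Module.finrank K M = 3)
    (hs : (E.map (cc M)).Surf (fun i => algebraMap K M (c i)) x z)
    (hx : x ∉ Set.range (algebraMap K M)) : E.Gen c x z :=
  ⟨hs, GSV.top_of hM rfl hx⟩

end Pool.Agent.GTEX
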