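import Pool.Agent.GTEX.SDat
import Pool.Agent.GTEX.Untw
import Pool.Agent.GSV.XD4

/-!
# GTEX: the smooth example, the type E side

`datE_gen`: the point of the K3 surface of the type E datum. `dE_eq`, `clsE_eq`: the numbers of the
quaternion algebra. `top`: the parameters generate `ℂ(s, t)`.
-/

set_option autoImplicit false
set_option maxRecDepth 100000

noncomputable section

namespace Pool.Agent.GTEX.S

open Pool.Agent.TK Pool.Agent.GTE Pool.Agent.GSV Pool.Agent.GSV.X3

theorem eE1 : chk (2 ^ 60) 30 F (H.s1 (Fr.ic d) (ES.map (Fr.ic d)) c v).n = true := by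
  decide +kernel

theorem eE2 : ∀ j, chk (2 ^ 60) 30 F (H.s2 (Fr.ic d) (ES.map (Fr.ic d)) c x v j).n = true := by
  decide +kernel

theorem eE3 : chk (2 ^ 60) 30 F (H.s3 (Fr.ic d) (ES.map (Fr.ic d)) c x v).n = true := by
  decide +kernel

theorem eE4 : chk (2 ^ 60) 30 F (H.s4 (Fr.ic d) (ES.map (Fr.ic d)) c x v).n = true := by
  decide +kernel

theorem eE5 : chk (2 ^ 60) 30 F (H.dd (Fr.ic d) (ES.map (Fr.ic d)) c - q).n = true := by
  decide +kernel

theorem eE6 : chk (2 ^ 60) 30 F (H.cls (Fr.ic d) (ES.map (Fr.ic d)) c x v - cl).n = true := by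
  decide +kernel

theorem valK_c0 : valK (c 0) = TK.var 0 := by
  simp [valK, c, Fr.ev, X3.ev]

theorem valK_c1 : valK (c 1) = TK.var 1 - 1 := by
  simp [valK, c, Fr.ev, X3.ev]

theorem top : IntermediateField.adjoin ℂ (Set.range fun i => valK (c i)) = ⊤ := by
  set T := IntermediateField.adjoin ℂ (Set.range fun i => valK (c i)) with hT
  have h0 : valK (c 0) ∈ T := IntermediateField.subset_adjoin _ _ ⟨0, rfl⟩
  have h1 : valK (c 1) ∈ T := IntermediateField.subset_adjoin _ _ ⟨1, rfl⟩
  rw [valK_c0] at h0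
  rw [valK_c1] at h1
  refine GSE.top_of_st h0 ?_
  have h2 := T.add_mem h1 T.one_mem
  rwa [sub_add_cancel] at h2

section

variable {M : Type} [Field M] [Algebra TK.K M] {z : M}

theorem dM_ne : X3.ev (algebraMap TK.K M (TK.var 0)) (algebraMap TK.K M (TK.var 1)) z d ≠ 0 := by
  have hM2 : CharZero M := charZero_of_injective_algebraMap (algebraMap TK.K M).injective
  simp [d, X3.ev]

theorem c_eq : (fun i => algebraMap TK.K M (valK (c i))) = fun i => val M z (c i) := by
  funext i
  exact algebraMap_valK (by fin_cases i <;> decide) (by decide)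

variable (hM : Module.finrank TK.K M = 3) (hzK : z ∉ Set.range (algebraMap TK.K M))
  (hz : Fr.Root F (algebraMap TK.K M (TK.var 0)) (algebraMap TK.K M (TK.var 1)) z)

include hM hzK hz

theorem datE_gen : (EC ES).Gen (fun i => valK (c i)) (val M z x) fun i => val M z (v i) := by
  refine genE hM ?_ (val_not_mem hM hzK (by decide) dM_ne 0 0 (by decide))
  rw [c_eq (z := z)]
  exact surfE_of hz dM_ne eE1 eE2 eE3 eE4

omit hM hzK in
theorem dE_eq : ((EC ES).map (TK.cc M)).d (fun i => algebraMap TK.K M (valK (c i))) =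
    val M z q := by
  rw [c_eq (z := z)]
  exact dE_of hz dM_ne eE5

omit hM hzK in
theorem clsE_eq : ((EC ES).map (TK.cc M)).cls (fun i => algebraMap TK.K M (valK (c i)))
    (val M z x) (fun i => val M z (v i)) = val M z cl := by
  rw [c_eq (z := z)]
  exact clsE_of hz dM_ne eE6

end

end Pool.Agent.GTEX.S
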