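import Pool.Agent.GTEX.SDat
import Pool.Agent.GSV.XD

/-!
# GTEX: the cubic fourfold of the smooth example

`gen`: the point `(n : n')` of the K3 surface of `twX XS` over the generic point of the plane, with
coordinates in the extension with the equation `F`.
-/

set_option autoImplicit false

noncomputable section

namespace Pool.Agent.GTEX.S

open Pool.Agent.TK Pool.Agent.GSV Pool.Agent.GSV.X3

theorem t0 : chk (2 ^ 100) 80 F (G.gg (Fr.ic d) (XS.map (Fr.ic d)) n n' 0).n = true := by
  decide +kernel

theorem t1 : chk (2 ^ 100) 80 F (G.d2 n - G.d2 n').n = true := by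
  decide +kernel

theorem t2 : chk (2 ^ 100) 80 F (cuT (Fr.ic d) (XS.map (Fr.ic d)) n n').n = true := by
  decide +kernel

theorem t3 : chk (2 ^ 100) 80 F (n 0 + n' 0 - ⟨.t, 0⟩).n = true := by
  decide +kernel

theorem t4 : chk (2 ^ 100) 80 F (n 1 + n' 1 - ⟨.sub (.c 0) .s, 0⟩).n = true := by
  decide +kernel

theorem t5 : chk (2 ^ 100) 80 F (n 2 + n' 2 - ⟨.c 1, 0⟩).n = true := by
  decide +kernel

theorem hd (M : Type) [Field M] [Algebra K M] (z : M) :
    X3.ev (algebraMap K M (var 0)) (algebraMap K M (var 1)) z d ≠ 0 := by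
  have : CharZero M := charZero_of_injective_algebraMap (algebraMap K M).injective
  change ((24 : ℤ) : M) ≠ 0
  norm_num

section

variable {M : Type} [Field M] [Algebra K M] {z : M} (hM : Module.finrank K M = 3)
  (hzK : z ∉ Set.range (algebraMap K M))
  (hz : Fr.Root F (algebraMap K M (var 0)) (algebraMap K M (var 1)) z)

include hM hzK hz

/-- **The point of the K3 surface.** -/
theorem gen : (twX XS).Gen (fun i => val M z (n i)) fun i => val M z (n' i) := by
  have hm := Fr.hm (hd M z)
  have add' : ∀ f g : Fr d, val M z (f + g) = val M z f + val M z g := hm.add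
  refine cubGen hM (surfT_of hz (hd M z) t0 t1 t2) ?_ ?_ ?_ 1 ?_
  · have h1 := eq_of hz (hd M z) t3
    rw [add'] at h1
    refine h1.trans ?_
    simp [val, Fr.ev, X3.ev]
  · have h1 := eq_of hz (hd M z) t4
    rw [add'] at h1
    refine h1.trans ?_
    simp [val, Fr.ev, X3.ev]
  · have h1 := eq_of hz (hd M z) t5
    rw [add'] at h1
    refine h1.trans ?_
    simp [val, Fr.ev, X3.ev]
  · refine not_mem_of hM hzK (d := 24) (a := 0) (b := 1) (c := 0) (Or.inl one_ne_zero) ?_
    have h1 := hd M z
    have h2 : X3.ev (algebraMap K M (var 0)) (algebraMap K M (var 1)) z d = 24 := by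
      change ((24 : ℤ) : M) = 24
      norm_num
    rw [h2] at h1
    change algebraMap K M 24 * (X3.ev _ _ z (n 1).n / X3.ev _ _ z d ^ 1) = _
    rw [h2, pow_one, map_ofNat, map_zero, map_one]
    field_simp
    change vx _ _ [] + vx _ _ [[1]] * z + vx _ _ [] * z ^ 2 = _
    simp [vx, hx, hy]

end

end Pool.Agent.GTEX.S
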