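import Pool.Agent.GTEX.ChainI
import Pool.Agent.GTEX.SX

/-!
# GTEX: the quaternion algebra of the smooth example

`quat`: the quaternion algebra `(-det n, n_00 n'_00)` is isomorphic to `(q, cl)`.
-/

set_option autoImplicit false

noncomputable section

namespace Pool.Agent.GTEX.S

open Pool.Agent.TK Pool.Agent.GSV Pool.Agent.GSV.X3
open scoped Quaternion

/-- `n'_00 η + lm ^ 2 + 4 det n = 0` -/
def η : Fr d :=
  ⟨.tb [[[-48, -60, 12], [-80, -4], [-24]], [[-4], [-2]]], 1⟩

/-- `n'_00 η + lm ^ 2 + 4 det n = 0` -/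
def lm : Fr d :=
  ⟨.tb [[[0, 12, -12], [48, 4], [24]], [[2], [2]]], 1⟩

/-- `(-det n mu ^ 2) (u ^ 2 - n_00 η q) = w ^ 2 - n_00 η y ^ 2` -/
def mu : Fr d :=
  ⟨.tb [[[-24, -36], [-40]], [[-2]]], 1⟩

/-- see `mu` -/
def u : Fr d :=
  ⟨.tb [[[0, -432, -648, 216], [-96, -288, -144], [432, -408], [144]], [[-48, -72], [12, -36],
    [12]]], 1⟩

/-- see `mu` -/
def w : Fr d :=
  ⟨.tb [[[0, 0, 1728, -1080, -11232, -9072, -648], [0, 6336, 37152, 30564, -20664, -14148], [768,
    26208, 86112, 59496, -11484, -4860], [-4160, 16448, 81680, 47244, -2916], [-6272, -7328,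
    39952, 12528], [-2592, -10272, 8640], [-288, -2592]], [[0, 144, 792, -288, -1368, 108], [96,
    2232, 5280, 1290, -1314], [-176, 3240, 9268, 2694, -486], [-464, 772, 6324, 1080], [-304,
    -980, 1692], [-48, -432]], [[0, 36, 42, -54], [-8, 76, 174, -36], [-8, 65, 219], [-6, -9, 81],
    [-2, -18]]], 2⟩

/-- see `mu` -/
def y : Fr d :=
  ⟨.tb [[[0, -3456, 3024, 12960, 1296], [0, 3744, 18000, -432], [13248, 12000, -3744], [11520,
    384], [2304]], [[0, 432, 1224, -216], [1248, 1392, -144], [1104, 432], [192]], [[48, 72], [36,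
    36]]], 2⟩

/-- `cl (u ^ 2 - n_00 η q) = r ^ 2 - q p ^ 2` -/
def r : Fr d :=
  ⟨.tb [[[0, 2592, 8424, 13284, 15552, 6804], [1152, 8640, 12312, 2808, 1296], [1056, 9360, -8244,
    -15660], [-2832, 4488, -6552], [-2880, 1632], [-576]], [[144, 1296, 3456, 2538, -162], [192,
    1782, 1548, -1026], [-288, 336, -288], [-276, 36], [-48]], [[12, 108, 162], [-12, 9, 27], [-9,
    -9]]], 0⟩

/-- see `r` -/
def p : Fr d :=
  ⟨.tb [[[0, 3456, -3024, -12960, -1296], [0, -3744, -18000, 432], [-13248, -12000, 3744],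
    [-11520, -384], [-2304]], [[0, -432, -1224, 216], [-1248, -1392, 144], [-1104, -432], [-192]],
    [[-48, -72], [-36, -36]]], 1⟩

theorem t6 : chk (2 ^ 200) 120 F (n' 0 * η + lm * lm + G.d2 n * (Fr.ic d 2 * Fr.ic d 2)).n =
    true := by
  decide +kernel

theorem t7 : chk (2 ^ 200) 120 F ((Fr.ic d 0 - G.d2 n) * (mu * mu) * (u * u - n 0 * η * q) -
    (w * w - n 0 * η * (y * y))).n = true := by
  decide +kernel

theorem t8 : chk (2 ^ 200) 120 F (cl * (u * u - n 0 * η * q) - (r * r - q * (p * p))).n =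
    true := by
  decide +kernel

variable {M : Type} [Field M] [Algebra K M] {z : M} (hM : Module.finrank K M = 3)
  (hzK : z ∉ Set.range (algebraMap K M))
  (hz : Fr.Root F (algebraMap K M (var 0)) (algebraMap K M (var 1)) z)

include hM hzK hz

/-- **The quaternion algebra.** -/
theorem quat : Nonempty (ℍ[M, -det2 (fun i => val M z (n i)), val M z (n 0) * val M z (n' 0)] ≃ₐ[M]
    ℍ[M, val M z q, val M z cl]) := by
  have hch : CharZero M := charZero_of_injective_algebraMap (algebraMap K M).injective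
  have hi : ∀ a b c : K, algebraMap K M a + algebraMap K M b * z +
      algebraMap K M c * z ^ 2 = 0 → a = 0 ∧ b = 0 ∧ c = 0 := fun _ _ _ h => lin_of hM hzK h
  have hm := Fr.hm (hd M z)
  have key : ∀ f : Fr d, nz 2 3 F f.n = true → val M z f ≠ 0 := fun f hf =>
    div_ne_zero (ne_of hz hi hf) (pow_ne_zero _ (hd M z))
  have mul' : ∀ f g : Fr d, val M z (f * g) = val M z f * val M z g := hm.mul
  have sub' : ∀ f g : Fr d, val M z (f - g) = val M z f - val M z g := hm.sub
  have add' : ∀ f g : Fr d, val M z (f + g) = val M z f + val M z g := hm.add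
  have ic' : ∀ a : ℤ, val M z (Fr.ic d a) = (a : M) := hm.c
  have hdet : det2 (fun i => val M z (n i)) = val M z (G.d2 n) := by
    rw [det2, pow_two]
    exact (hm.d2 n).symm
  have g6 : val M z (n' 0 * η + lm * lm + G.d2 n * (Fr.ic d 2 * Fr.ic d 2)) = 0 :=
    Fr.zero_of t6 hz
  have g7 := eq_of hz (hd M z) t7
  have g8 := eq_of hz (hd M z) t8
  have k1 := key (G.d2 n) (by decide +kernel)
  have k2 := key (n 0) (by decide +kernel)
  have k3 := key (n' 0) (by decide +kernel)
  have k4 := key η (by decide +kernel)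
  have k5 := key mu (by decide +kernel)
  have k6 := key q (by decide +kernel)
  have k7 := key cl (by decide +kernel)
  have k8 := key (u * u - n 0 * η * q) (by decide +kernel)
  rw [hdet]
  simp only [mul', sub', add', ic'] at g6 g7 g8 k8
  rw [Int.cast_zero, zero_sub] at g7
  exact Quat.chain_i two_ne_zero cc_I2 k1 k2 k3 k4 k5 k6 k7 k8 g6 g7 g8

end Pool.Agent.GTEX.S
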