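import Pool.Agent.GTEX.SDat
import Pool.Agent.GTEX.Untw
import Pool.Agent.GTEX.IrrP
import Pool.Agent.GSV.XD4
import Pool.Agent.GTE.EPen

/-!
# GTEX: the smooth example, the quaternion algebra of the partner is split

`F`: the cubic equation of the function field of the K3 surface of `ES.swap`. `untwisted`.
-/

set_option autoImplicit false
set_option maxRecDepth 100000

noncomputable section

namespace Pool.Agent.GTEX.U

open Pool.Agent.TK Pool.Agent.GTE Pool.Agent.GSV Pool.Agent.GSV.X3

/-- the cubic equation -/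
def F : List (List (List ℤ)) := [[[1296, -864, -50976, -39744, 12960, 15552], [1296, -29952,
    -164448, -81792, 57888, 10368], [3888, -55968, -192000, -39552, 34272, 1728], [7536, -18816,
    -110976, -4992, 5472], [-1776, 12960, -31200, 192], [-7920, 8448, -3360], [-3792, 1248],
    [-528]], [[48, 600, 912, -1584, -216], [-1256, 2000, -512, -672, -72], [-3232, 2256, 928,
    -48], [-1632, 1680, 400], [-40, 376], [64]], [[5, 44, 30], [87, 20, 6], [21, 8], [-5]]]

/-- the denominator -/
def d : X3 := tb [[[108], [144], [36]]]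

/-- the parameters -/
def c : Fin 2 → Fr d := ![⟨X3.s, 0⟩, ⟨X3.t, 0⟩]

/-- the point of the surface -/
def x : Fr d := ⟨tb [[], [[12], [12]]], 1⟩

/-- the point of the surface -/
def v : Fin 5 → Fr d := ![⟨tb [[[-216, 216], [-288, 288], [-72, 72]]], 1⟩, ⟨tb [[[-216, 216],
    [-288, 288], [-72, 72]]], 1⟩, ⟨tb [[[-36, -252, -216], [-48, -480, -72], [60, -132], [24]],
    [[9], [-3]]], 1⟩, ⟨tb [[[396, 504, 432], [852, 960, 144], [420, 264], [60]], [[-27], [-3]]],
    1⟩, ⟨tb [[[36, -72, -432], [588, -384, -144], [876, -120], [228]], [[9], [-15]]], 1⟩]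

theorem t1 : chk (2 ^ 160) 40 F (H.s1 (Fr.ic d) (S.ES.swap.map (Fr.ic d)) c v).n = true := by
  decide +kernel

theorem t2 : ∀ j, chk (2 ^ 160) 40 F (H.s2 (Fr.ic d) (S.ES.swap.map (Fr.ic d)) c x v j).n =
    true := by
  decide +kernel

theorem t3 : chk (2 ^ 160) 40 F (H.s3 (Fr.ic d) (S.ES.swap.map (Fr.ic d)) c x v).n = true := by
  decide +kernel

theorem t4 : chk (2 ^ 160) 40 F (H.s4 (Fr.ic d) (S.ES.swap.map (Fr.ic d)) c x v).n = true := by
  decide +kernel

theorem noRoot : NoRoot F := no_root_mod (p := 19) (a := 10) (b := 3) (c := 12) (by norm_num)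
  (by decide +kernel)

theorem dK_ne : X3.ev (TK.var 0) (TK.var 1) 0 d ≠ 0 := by
  have h := vxK_ne (T := [[108], [144], [36]]) 0 0 (by decide)
  simpa [d, X3.ev, vx, hx] using h

theorem dM_ne (M : Type) [Field M] [Algebra TK.K M] (z : M) :
    X3.ev (algebraMap TK.K M (TK.var 0)) (algebraMap TK.K M (TK.var 1)) z d ≠ 0 := by
  have h : nom d = true := by decide
  have h1 := ev_map (algebraMap TK.K M) (TK.var 0) (TK.var 1) 0 d
  rw [map_zero] at h1
  rw [ev_nom h _ _ z 0, ← h1, Ne, map_eq_zero]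
  exact dK_ne

theorem untwisted : (EC S.ES).swap.Untwisted := by
  obtain ⟨M, hMf, hMa, z, hM, hzK, hz⟩ := exists_extN noRoot
  have hd := dM_ne M z
  have h1 : EC S.ES.swap = (EC S.ES).swap := by
    exact (EDat.swap_map (Int.castRingHom ℂ) S.ES).symm
  rw [← h1]
  refine untw_of (x := val M z x) (z := fun i => val M z (v i)) ?_ ?_ hM ?_
  · change ((0 : ℤ) : ℂ) = 0
    exact Int.cast_zero
  · intro i
    fin_cases i
    all_goals
      change ((0 : ℤ) : ℂ) = 0
      exact Int.cast_zero
  · have hc : (fun i => algebraMap TK.K M (TK.var i)) = fun i => val M z (c i) := by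
      funext i
      fin_cases i <;> simp [val, c, Fr.ev, X3.ev]
    refine genE hM ?_ (val_not_mem hM hzK (by decide) hd 0 0 (by decide))
    rw [hc]
    exact surfE_of hz hd t1 t2 t3 t4

end Pool.Agent.GTEX.U
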