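import Pool.Agent.GTEX.SmoothT
import Pool.Agent.GTEX.SDat

/-!
# GTEX: smoothness of the cubic fourfold

`smooth`: from certificates modulo 7.
-/

set_option autoImplicit false
set_option maxRecDepth 100000

noncomputable section

namespace Pool.Agent.GTEX.S

open Pool.Agent GTEX

namespace Sm

/-- certificate for the chart 0 -/
def c0 : Fin 6 → GSE.NP 0 :=
  (![0, 0, 0, 0, 0, 4] : Fin 6 → ℤ)

/-- certificate for the chart 1 -/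
def c1 : Fin 6 → GSE.NP 1 :=
  (![[6], [], [], [], [], []] : Fin 6 → List ℤ)

/-- certificate for the chart 2 -/
def c2 : Fin 6 → GSE.NP 2 :=
  (![[], [], [], [[5]], [], []] : Fin 6 → List (List ℤ))

/-- certificate for the chart 3 -/
def c3 : Fin 6 → GSE.NP 3 :=
  (![[[[1],[6]],[[6]]], [[[3],[4]],[[6]]], [[[6],[3]],[[1]]], [[[4],[3]],[[3]]], [[[4],[5]],
    [[5]]], []] : Fin 6 → List (List (List ℤ)))

/-- certificate for the chart 4 -/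
def c4 : Fin 6 → GSE.NP 4 :=
  (![[[[[3,4],[4]],[[4],[6]]],[[[2],[4]],[[3]]],[[[5]]]], [[[[5],[3]],[[6,1]],[[1]]],[[[5,2],
    [5]]],[[[4]]]], [[[[4,3],[1]],[[1,6],[3]],[[6]]],[[[3]],[[1]]],[[[4]]]], [[[[4,4],[6]],[[5],
    [5]],[[4]]],[[[2],[6]]],[[[1]]]], [[[[4,4],[5]],[[1]],[[6]]],[[[5],[2]],[[4]]],[[[3]]]],
     [[[[6],[3]],[[3]]],[[[],[2]],[[2]]]]] : Fin 6 → List (List (List (List ℤ))))

/-- certificate for the chart 5 -/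
def c5 : Fin 6 → GSE.NP 5 :=
  (![[[[[[5,5],[4],[3]],[[2,2],[4]],[[3],[4]],[[3]],[[3]]],[[[3]],[[],[5]],[[2]],[[2]]],[[[4],
    [4]],[[2],[1]],[[2]]],[[[5],[5]],[[3],[3]],[[4]]],[[[5],[1]],[[6]]],[[[2]]]],[[[[2],[4]],[[5],
    [6]],[[1],[6]],[[6]]],[[[3],[4]],[[5],[4]],[[2]]],[[[1],[1]],[[4],[3]],[[1]]],[[[2],[4]]],
    [[[3]]]],[[[[2],[5]],[[5],[3]],[[3]],[[6]]],[[[],[4]],[[6],[2]],[[2]]],[[[],[4]],[[4]]]],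
    [[[[1],[1]],[[],[1]],[[6]]],[[[2],[4]],[[3]]],[[[6]]]],[[[[3]],[[5]]],[[[1]]]],[[[[1]]]]],
     [[[[[3,1],[4,6],[1]],[[1],[5]],[[3,4],[5]],[[5]],[[4]]],[[[6,3],[6]],[[4,2]],[[4]]],[[[5,6]],
    [[6],[6]],[[4]]],[[[4],[5]],[[5],[4]]],[[[5],[3]],[[1]]],[[[2]]]],[[[[5,6],[5]],[[5,4],[3]],
    [[4]]],[[[6,1]],[[2],[3]],[[1]]],[[[],[1]],[[2],[4]],[[3]]],[[[1]],[[1]]],[[[6]]]],[[[[1,1],
    [6]],[[],[3]],[],[[1]]],[[[],[4]],[[4],[5]]],[[[1],[2]],[[2]]],[[[1]]]],[[[[0,5],[1]],[[],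
    [5]],[[2]]],[[[2],[5]],[[5]]],[[[2]]]],[[[[4,5],[1]]],[[[2]]]],[[[[4]]]]], [[[[[6,2],[5]],[[5,
    6],[2]],[[2],[5]],[[6]],[[3]]],[[[5],[5]],[[6],[5]],[[2]],[[6]]],[[[1],[1]],[[],[1]],[[3]]],
    [[[4],[2]],[[],[3]]],[[[2],[4]]],[[[2]]]],[[[[],[4]],[[],[4]],[[1]],[[1]]],[[[1],[5]],[[4],
    [4]],[[2]]],[[[5],[6]],[[1],[3]],[[4]]],[[[6]]],[[[5]]]],[[[[3],[1]],[[5],[4]],[[1]],[[6]]],
    [[[5],[3]],[[2],[2]],[[5]]],[[[5],[5]],[[6]]],[[[1]]]],[[[[3]],[[1],[2]]],[[[3],[2]],[[6]]],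
    [[[5]]]],[[[[1],[1]]],[[[3]]]],[[[[3]]]]], [[[[[5,3],[2],[6]],[[5],[1]],[[1],[6]],[[6],[1]],
    [[1]]],[[[5,2],[4]],[[5],[4]],[[2]],[[4]]],[[[6,1],[4]],[[3],[4]],[[4]]],[[[4],[5]],[[5],[6]],
    [[6]]],[[[4],[5]],[[1]]],[[[3]]]],[[[[0,2],[],[1]],[[3,2],[3]],[[1]],[[3]]],[[[6,1],[1]],[[2],
    [4]],[[3]]],[[[2],[5]],[[1],[5]],[[5]]],[[[2],[5]],[[1]]],[[[6]]]],[[[[0,6],[2]],[[5]],[[4],
    [2]],[[2]]],[[[2,1],[2]],[[4],[4]],[[5]]],[[[3],[1]],[[2]]],[[[6]]]],[[[[4,1],[5]],[[],[3]],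
    [[2]]],[[[],[5]],[[1]]],[[[5]]]],[[[[4],[6]],[[5]]],[[[2]]]],[[[[3]]]]], [[[[[0,1],[3],[5]],
    [],[[5],[3]],[[2]]],[[[3],[6]],[[1]],[[1]],[[4]]],[[[],[5]]],[[[5],[5]],[[4]]],[[[6],[2]],
    [[5]]],[[[3]]]],[[[[0,6],[1]],[[6,4],[6]],[[],[3]],[[5]]],[[[6],[2]],[[5]]],[[[4],[1]],[[4]]],
    [[[4],[2]],[[6]]]],[[[[],[6]],[[3],[3]]],[[[3],[4]],[[6]],[[1]]],[[[4],[3]],[[4]]]],[[[[6,6],
    [1]],[[1],[3]]],[[[4],[1]],[[2]]],[[[6]]]],[[[[5],[3]],[[5]]],[[[3]]]],[[[[3]]]]], [[[[[3],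
    [5],[6]],[[4],[5]],[[5],[4]],[[4]]],[[[5],[3]],[[6],[2]],[[2]]],[[[5],[6]],[[6]]],[[[1]]]],
    [[[[6],[6]],[[4],[4]],[[4]]],[[[],[1]],[[6]]]],[[[[3],[1]],[[2]]],[[[6]]],[[[1]]]],[[[[5],
    [5]],[[5]]],[[[1]]]],[[[[4],[5]],[[5]]]]]] : Fin 6 → List (List (List (List (List ℤ)))))

/-- the certificates -/
def c : (n : ℕ) → Fin 6 → GSE.NP n
  | 0 => c0
  | 1 => c1
  | 2 => c2
  | 3 => c3
  | 4 => c4
  | 5 => c5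
  | _ + 6 => fun _ => GSE.NP.zero _

end Sm

theorem smooth : P28.PSmooth (twX XS).F := by
  refine psmooth_twX XS 7 (by norm_num) Sm.c fun n hn => ?_
  interval_cases n <;> decide +kernel

theorem irr : Irreducible (twX XS).F := irr_of_psmooth _ smooth

theorem nondeg : (twX XS).NonDeg :=
  nondeg_twX _ (by decide +kernel) (by decide +kernel) (by decide +kernel)

end Pool.Agent.GTEX.S
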