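import Pool.Agent.GTEX.SD
import Pool.Agent.GTEX.SE
import Pool.Agent.GTEX.SU
import Pool.Agent.GTEX.SX
import Pool.Agent.GTEX.SQ
import Pool.Agent.GTEX.SmX2

/-!
# GTEX: all hypotheses of the theorem on type E data hold for a smooth cubic fourfold

`exampleS`: the cubic fourfold `twX XS`, the datum `ES` and the parameters `(s, t - 1)`.
-/

set_option autoImplicit false

noncomputable section

namespace Pool.Agent.GTEX

open MvPolynomial Pool.Agent.TK Pool.Agent.GTE Pool.Agent.GSV Pool.Agent.GSV.X3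
open scoped Quaternion

theorem S.same : SameK3 (twX S.XS) (EC S.ES) fun i => valK (S.c i) := by
  obtain ⟨M, hMf, hMa, z, hM, hzK, hz⟩ := exists_extN
    (no_root_mod (F := S.F) (p := 5) (a := 1) (b := 2) (c := 1) (by norm_num) (by decide +kernel))
  refine ⟨M, hMf, hMa, fun i => val M z (S.n i), fun i => val M z (S.n' i), val M z S.x,
    fun i => val M z (S.v i), hM, S.gen hM hzK hz, S.datE_gen hM hzK hz, ?_⟩
  rw [S.dE_eq hz, S.clsE_eq hz]
  exact S.quat hM hzK hz

/-- **There is a smooth cubic fourfold with all the properties.** -/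
theorem exampleS : ∃ (X : Cub ℂ) (E : EDat ℂ) (c : Fin 2 → K), P28.PSmooth X.F ∧ X.NonDeg ∧
    Irreducible X.F ∧ eval E.coord DE ≠ 0 ∧ IntermediateField.adjoin ℂ (Set.range c) = ⊤ ∧
    SameK3 X E c ∧ E.swap.Untwisted :=
  ⟨twX S.XS, EC S.ES, fun i => valK (S.c i), S.smooth, S.nondeg, S.irr, S.de_ne, S.top, S.same,
    U.untwisted⟩

end Pool.Agent.GTEX
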