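import Pool.Agent.GTEX.IrrN
import Pool.Agent.GTEX.SDat

/-!
# GTEX: the two cubic extensions of `ℂ(s, t)` of the smooth example

`F`: the function field of the K3 surface of the cubic fourfold and of the datum. `G`: the function
field of the K3 surface of the datum with `e` and `f` exchanged. `nrF`, `nrG`: the polynomials are
irreducible over `ℂ(s, t)`.
-/

set_option autoImplicit false

noncomputable section

namespace Pool.Agent.GTEX.S

open Pool.Agent.GSV.X3

/-- the cubic equation of `3 (3 + s) x''` -/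
def G : List (List (List ℤ)) :=
  [[[1296, -864, -50976, -39744, 12960, 15552], [1296, -29952, -164448, -81792, 57888, 10368],
    [3888, -55968, -192000, -39552, 34272, 1728], [7536, -18816, -110976, -4992, 5472], [-1776,
    12960, -31200, 192], [-7920, 8448, -3360], [-3792, 1248], [-528]], [[48, 600, 912, -1584,
    -216], [-1256, 2000, -512, -672, -72], [-3232, 2256, 928, -48], [-1632, 1680, 400], [-40,
    376], [64]], [[5, 44, 30], [87, 20, 6], [21, 8], [-5]]]

/-- no solution in `ℂ(s, t)` -/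
theorem nrF : NoRoot F := by
  refine no_root1 (by decide) fun a b h => ?_
  have g0 : ∀ τ : ℂ, vx 0 τ (F.getD 0 []) = 1728 * τ + 3024 * τ ^ 2 + (-324) * τ ^ 3 +
      (-1620) * τ ^ 4 := by
    intro τ
    simp only [F, List.getD_cons_zero, vx, hx, hy]
    push_cast
    ring
  have g1 : ∀ τ : ℂ, vx 0 τ (F.getD 1 []) = 144 * τ + 144 * τ ^ 2 + (-162) * τ ^ 3 := by
    intro τ
    simp only [F, List.getD_cons_zero, List.getD_cons_succ, vx, hx, hy]
    push_cast
    ring
  have g2 : ∀ τ : ℂ, vx 0 τ (F.getD 2 []) = (-12) + (-6) * τ := by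
    intro τ
    simp only [F, List.getD_cons_zero, List.getD_cons_succ, vx, hx, hy]
    push_cast
    ring
  have hh : ∀ τ : ℂ, (a * τ + b) ^ 3 = (1728 * τ + 3024 * τ ^ 2 + (-324) * τ ^ 3 +
      (-1620) * τ ^ 4) + (144 * τ + 144 * τ ^ 2 + (-162) * τ ^ 3) * (a * τ + b) + ((-12) +
      (-6) * τ) * (a * τ + b) ^ 2 := by
    intro τ
    have h1 := h τ
    rw [g0, g1, g2] at h1
    exact h1
  have h0 := hh 0
  have h1 := hh 1
  have h2 := hh (-1)
  have h3 := hh 2
  have h4 := hh (-2)
  have e4 : 162 * a + 1620 = 0 := by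
    linear_combination (1/4) * h0 + (-1/6) * h1 + (-1/6) * h2 + (1/24) * h3 + (1/24) * h4
  have e3 : a ^ 3 + 6 * a ^ 2 + (-144) * a + 162 * b + 324 = 0 := by
    linear_combination (-1/6) * h1 + (1/6) * h2 + (1/12) * h3 + (-1/12) * h4
  have e2 : 3 * a ^ 2 * b + 12 * a ^ 2 + 12 * a * b + (-144) * a + (-144) * b + (-3024) = 0 := by
    linear_combination (-5/4) * h0 + (2/3) * h1 + (2/3) * h2 + (-1/24) * h3 + (-1/24) * h4
  have e1 : 3 * a * b ^ 2 + 24 * a * b + 6 * b ^ 2 + (-144) * b + (-1728) = 0 := by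
    linear_combination (2/3) * h1 + (-2/3) * h2 + (-1/12) * h3 + (1/12) * h4
  have e0 : b ^ 3 + 12 * b ^ 2 = 0 := by
    linear_combination 1 * h0
  obtain rfl : a = (-10) := by linear_combination (1/162) * e4
  obtain rfl : b = (-682/81) := by linear_combination (1/162) * e3
  norm_num at e2

/-- no solution in `ℂ(s, t)` -/
theorem nrG : NoRoot G := by
  refine no_root2 (by decide) fun a b c h => ?_
  have g0 : ∀ τ : ℂ, vx 0 τ (G.getD 0 []) = 1296 + (-864) * τ + (-50976) * τ ^ 2 +
      (-39744) * τ ^ 3 + 12960 * τ ^ 4 + 15552 * τ ^ 5 := by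
    intro τ
    simp only [G, List.getD_cons_zero, vx, hx, hy]
    push_cast
    ring
  have g1 : ∀ τ : ℂ, vx 0 τ (G.getD 1 []) = 48 + 600 * τ + 912 * τ ^ 2 + (-1584) * τ ^ 3 +
      (-216) * τ ^ 4 := by
    intro τ
    simp only [G, List.getD_cons_zero, List.getD_cons_succ, vx, hx, hy]
    push_cast
    ring
  have g2 : ∀ τ : ℂ, vx 0 τ (G.getD 2 []) = 5 + 44 * τ + 30 * τ ^ 2 := by
    intro τ
    simp only [G, List.getD_cons_zero, List.getD_cons_succ, vx, hx, hy]
    push_cast
    ring
  have hh : ∀ τ : ℂ, (a * τ ^ 2 + b * τ + c) ^ 3 = (1296 + (-864) * τ + (-50976) * τ ^ 2 +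
      (-39744) * τ ^ 3 + 12960 * τ ^ 4 + 15552 * τ ^ 5) + (48 + 600 * τ + 912 * τ ^ 2 +
      (-1584) * τ ^ 3 + (-216) * τ ^ 4) * (a * τ ^ 2 + b * τ + c) + (5 + 44 * τ +
      30 * τ ^ 2) * (a * τ ^ 2 + b * τ + c) ^ 2 := by
    intro τ
    have h1 := h τ
    rw [g0, g1, g2] at h1
    exact h1
  have h0 := hh 0
  have h1 := hh 1
  have h2 := hh (-1)
  have h3 := hh 2
  have h4 := hh (-2)
  have h5 := hh 3
  have h6 := hh (-3)
  have e6 : a ^ 3 + (-30) * a ^ 2 + 216 * a = 0 := by
    linear_combination (-1/36) * h0 + (1/48) * h1 + (1/48) * h2 + (-1/120) * h3 +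
        (-1/120) * h4 + (1/720) * h5 + (1/720) * h6
  have e5 : 3 * a ^ 2 * b + (-44) * a ^ 2 + (-60) * a * b + 1584 * a + 216 * b +
      (-15552) = 0 := by
    linear_combination (1/48) * h1 + (-1/48) * h2 + (-1/60) * h3 + (1/60) * h4 + (1/240) * h5 +
        (-1/240) * h6
  have e4 : 3 * a ^ 2 * c + (-5) * a ^ 2 + 3 * a * b ^ 2 + (-88) * a * b + (-60) * a * c +
      (-912) * a + (-30) * b ^ 2 + 1584 * b + 216 * c + (-12960) = 0 := by
    linear_combination (7/18) * h0 + (-13/48) * h1 + (-13/48) * h2 + (1/12) * h3 + (1/12) * h4 +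
        (-1/144) * h5 + (-1/144) * h6
  have e3 : 6 * a * b * c + (-10) * a * b + (-88) * a * c + (-600) * a + b ^ 3 + (-44) * b ^ 2 +
      (-60) * b * c + (-912) * b + 1584 * c + 39744 = 0 := by
    linear_combination (-13/48) * h1 + (13/48) * h2 + (1/6) * h3 + (-1/6) * h4 + (-1/48) * h5 +
        (1/48) * h6
  have e2 : 3 * a * c ^ 2 + (-10) * a * c + (-48) * a + 3 * b ^ 2 * c + (-5) * b ^ 2 +
      (-88) * b * c + (-600) * b + (-30) * c ^ 2 + (-912) * c + 50976 = 0 := by
    linear_combination (-49/36) * h0 + (3/4) * h1 + (3/4) * h2 + (-3/40) * h3 + (-3/40) * h4 +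
        (1/180) * h5 + (1/180) * h6
  have e1 : 3 * b * c ^ 2 + (-10) * b * c + (-48) * b + (-44) * c ^ 2 + (-600) * c + 864 = 0 := by
    linear_combination (3/4) * h1 + (-3/4) * h2 + (-3/20) * h3 + (3/20) * h4 + (1/60) * h5 +
        (-1/60) * h6
  have e0 : c ^ 3 + (-5) * c ^ 2 + (-48) * c + (-1296) = 0 := by
    linear_combination 1 * h0
  have q : (a - 0) * (a - 12) * (a - 18) = 0 := by
    linear_combination 1 * e6
  rcases mul_eq_zero.1 q with q1 | q2
  · rcases mul_eq_zero.1 q1 with q1 | q2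
    · obtain rfl : a = 0 := by linear_combination q1
      obtain rfl : b = 72 := by linear_combination (1/216) * e5
      obtain rfl : c = 252 := by linear_combination (1/216) * e4
      norm_num at e3
    · obtain rfl : a = 12 := by linear_combination q2
      obtain rfl : b = (-40) := by linear_combination (-1/72) * e5
      obtain rfl : c = (-502) := by linear_combination (-1/72) * e4
      norm_num at e3
  · obtain rfl : a = 18 := by linear_combination q2
    obtain rfl : b = 12 := by linear_combination (1/108) * e5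
    obtain rfl : c = 255 := by linear_combination (1/108) * e4
    norm_num at e3

end Pool.Agent.GTEX.S
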