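import Pool.Agent.GSE.Smooth
import Pool.Agent.GSE.Short
import Pool.Agent.GTEX.Tw

/-!
# GTEX: smoothness of a cubic with coefficients in `ℤ[i]` of a special shape

`tw D`: the coefficients of `X 3`, `X 4` in `A`, `B` are multiplied by `i`. Then the cubic form is
`FT D (x0, p, i q, x5)` with `FT D = pᵀ adj(A) p + qᵀ adj(B) q + x5 (det A - det B)`, which has
integer coefficients. `psmooth_twX`: smoothness from certificates for `FT D` modulo `p` for the six
charts `v n = 1`, `v j = 0` for `j > n`, to be checked by the kernel (`twX`: the same for the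
structure `TK.Cub`). `irr_of_psmooth`: a smooth cubic is irreducible.
-/

set_option autoImplicit false

noncomputable section

namespace Pool.Agent.GTEX.SmT

open MvPolynomial Matrix Pool.Agent.GSX Pool.Agent.GSE

section

variable {R : Type} [CommRing R] (D : Cub ℤ) (v : Fin 6 → R)

/-- the last part of the partial derivatives of the cubic -/
def dT4 : Fin 6 → R :=
  ![0, 2 * va D v 2 * v 1 - 2 * va D v 1 * v 2, -(2 * va D v 1 * v 1) + 2 * va D v 0 * v 2,
    2 * vb D v 2 * v 3 - 2 * vb D v 1 * v 4, -(2 * vb D v 1 * v 3) + 2 * vb D v 0 * v 4,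
    (va D v 0 * va D v 2 - va D v 1 ^ 2) - (vb D v 0 * vb D v 2 - vb D v 1 ^ 2)]

/-- the partial derivatives of the cubic -/
def dT (k : Fin 6) : R :=
  ((D.a k 2 : R) * v 1 ^ 2 - 2 * (D.a k 1 : R) * (v 1 * v 2) + (D.a k 0 : R) * v 2 ^ 2) +
    ((D.b k 2 : R) * v 3 ^ 2 - 2 * (D.b k 1 : R) * (v 3 * v 4) + (D.b k 0 : R) * v 4 ^ 2) +
    v 5 * ((D.a k 0 : R) * va D v 2 + va D v 0 * (D.a k 2 : R) - 2 * va D v 1 * (D.a k 1 : R) -
      ((D.b k 0 : R) * vb D v 2 + vb D v 0 * (D.b k 2 : R) - 2 * vb D v 1 * (D.b k 1 : R))) +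
    dT4 D v k

/-- the cubic form over `ℤ` -/
def FT : MvPolynomial (Fin 6) ℤ :=
  (linZ (fun k => D.a k 2) * X 1 ^ 2 - 2 * linZ (fun k => D.a k 1) * (X 1 * X 2) +
      linZ (fun k => D.a k 0) * X 2 ^ 2) +
    (linZ (fun k => D.b k 2) * X 3 ^ 2 - 2 * linZ (fun k => D.b k 1) * (X 3 * X 4) +
      linZ (fun k => D.b k 0) * X 4 ^ 2) +
    X 5 * ((linZ (fun k => D.a k 0) * linZ (fun k => D.a k 2) - linZ (fun k => D.a k 1) ^ 2) -
      (linZ (fun k => D.b k 0) * linZ (fun k => D.b k 2) - linZ (fun k => D.b k 1) ^ 2))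

theorem hom_FT : (FT D).IsHomogeneous 3 := by
  have hX : ∀ i : Fin 6, (X i : MvPolynomial (Fin 6) ℤ).IsHomogeneous 1 := isHomogeneous_X ℤ
  have h2 : ∀ a b c : MvPolynomial (Fin 6) ℤ, a.IsHomogeneous 1 → b.IsHomogeneous 1 →
      c.IsHomogeneous 1 → (a * (b * c)).IsHomogeneous 3 := fun a b c ha hb hc =>
    ha.mul (hb.mul hc)
  have h3 : ∀ a b c : MvPolynomial (Fin 6) ℤ, a.IsHomogeneous 1 → b.IsHomogeneous 1 →
      c.IsHomogeneous 1 → (2 * a * (b * c)).IsHomogeneous 3 := fun a b c ha hb hc => by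
    have h4 : (2 * a * (b * c)) = C 2 * (a * (b * c)) := by
      rw [show (C 2 : MvPolynomial (Fin 6) ℤ) = 2 from map_ofNat C 2]
      ring
    rw [h4]
    have := (isHomogeneous_C (Fin 6) (2 : ℤ)).mul (h2 a b c ha hb hc)
    simpa using this
  unfold FT
  simp only [pow_two]
  refine (((((h2 _ _ _ (hom_linZ _) (hX _) (hX _)).sub (h3 _ _ _ (hom_linZ _) (hX _) (hX _))).add
    (h2 _ _ _ (hom_linZ _) (hX _) (hX _)))).add
    (((h2 _ _ _ (hom_linZ _) (hX _) (hX _)).sub (h3 _ _ _ (hom_linZ _) (hX _) (hX _))).add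
    (h2 _ _ _ (hom_linZ _) (hX _) (hX _)))).add ?_
  exact (hX 5).mul ((((hom_linZ _).mul (hom_linZ _)).sub ((hom_linZ _).mul (hom_linZ _))).sub
    (((hom_linZ _).mul (hom_linZ _)).sub ((hom_linZ _).mul (hom_linZ _))))

theorem aeval_pderivT (k : Fin 6) : aeval v (pderiv k (FT D)) = dT D v k := by
  have h2 : ∀ k : Fin 6, pderiv k (2 : MvPolynomial (Fin 6) ℤ) = 0 := fun k => by
    rw [show (2 : MvPolynomial (Fin 6) ℤ) = C 2 from (map_ofNat C 2).symm, pderiv_C]
  have hC : ∀ z : ℤ, aeval v (C z : MvPolynomial (Fin 6) ℤ) = (z : R) := fun z => by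
    rw [aeval_C]
    rfl
  unfold FT dT dT4 va vb
  simp only [map_add, map_sub, Derivation.leibniz, Derivation.leibniz_pow, pderiv_linZ, h2,
    smul_eq_mul, map_mul, map_pow, aeval_X, aeval_linZ, hC, add_zero, nsmul_eq_mul,
    map_natCast, map_ofNat, mul_zero]
  fin_cases k <;> simp [pderiv_X] <;> ring

end

/-- Smoothness of the cubic over `ℤ`. -/
theorem psmoothT (D : Cub ℤ) (p : ℕ) (hp : p.Prime) (h : ∀ (κ : Type) [Field κ] [CharP κ p]
    (v : Fin 6 → κ), (∀ k, dT D v k = 0) → v = 0) :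
    P28.PSmooth (map (Int.castRingHom ℂ) (FT D)) := by
  refine psmooth_of_red _ (hom_FT D) p hp fun κ _ _ v hv => h κ v fun k => ?_
  rw [← aeval_pderivT]
  exact hv k

/-! ### The test -/

/-- the last part of the partial derivatives in the chart -/
def t4T (D : Cub ℤ) (n : ℕ) : Fin 6 → NP n :=
  ![NP.zero n,
    NP.add n (t1N n 2 (lcN n fun j => D.a j 2) 1) (t1N n (-2) (lcN n fun j => D.a j 1) 2),
    NP.add n (t1N n (-2) (lcN n fun j => D.a j 1) 1) (t1N n 2 (lcN n fun j => D.a j 0) 2),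
    NP.add n (t1N n 2 (lcN n fun j => D.b j 2) 3) (t1N n (-2) (lcN n fun j => D.b j 1) 4),
    NP.add n (t1N n (-2) (lcN n fun j => D.b j 1) 3) (t1N n 2 (lcN n fun j => D.b j 0) 4),
    sumN n [NP.mul n (lcN n fun j => D.a j 0) (lcN n fun j => D.a j 2),
      NP.mul n (NP.const (-1) n) (NP.mul n (lcN n fun j => D.a j 1) (lcN n fun j => D.a j 1)),
      NP.mul n (NP.const (-1) n) (NP.mul n (lcN n fun j => D.b j 0) (lcN n fun j => D.b j 2)),
      NP.mul n (lcN n fun j => D.b j 1) (lcN n fun j => D.b j 1)]]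

/-- the partial derivatives in the chart -/
def dTN (D : Cub ℤ) (n : ℕ) (k : Fin 6) : NP n :=
  sumN n [t2N n (D.a k 2) 1 1, t2N n (-2 * D.a k 1) 1 2, t2N n (D.a k 0) 2 2,
    t2N n (D.b k 2) 3 3, t2N n (-2 * D.b k 1) 3 4, t2N n (D.b k 0) 4 4,
    NP.mul n (NP.v 5 n) (lcN n fun j => D.a k 0 * D.a j 2 + D.a k 2 * D.a j 0 -
      2 * D.a k 1 * D.a j 1 - (D.b k 0 * D.b j 2 + D.b k 2 * D.b j 0 - 2 * D.b k 1 * D.b j 1)),
    t4T D n k]

section

variable {R : Type} [CommRing R] (x : ℕ → R)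

theorem ev_t4T (D : Cub ℤ) (n : ℕ) (k : Fin 6) :
    NP.ev x n (t4T D n k) = dT4 D (pt x n) k := by
  have h1 : NP.ev x n (NP.v 1 n) = pt x n 1 := ev_vN x n 1
  have h2 : NP.ev x n (NP.v 2 n) = pt x n 2 := ev_vN x n 2
  have h3 : NP.ev x n (NP.v 3 n) = pt x n 3 := ev_vN x n 3
  have h4 : NP.ev x n (NP.v 4 n) = pt x n 4 := ev_vN x n 4
  have ha : ∀ i, (∑ j, (D.a j i : R) * pt x n j) = va D (pt x n) i := fun i => rfl
  have hb : ∀ i, (∑ j, (D.b j i : R) * pt x n j) = vb D (pt x n) i := fun i => rfl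
  have hk : ∀ k : Fin 6, k = 0 ∨ k = 1 ∨ k = 2 ∨ k = 3 ∨ k = 4 ∨ k = 5 := by decide
  rcases hk k with rfl | rfl | rfl | rfl | rfl | rfl
  · exact NP.ev_zero x n
  all_goals
    simp only [t4T, dT4, Matrix.cons_val, ev_sumN, List.map_cons, List.map_nil, List.sum_cons,
      List.sum_nil, NP.ev_mul, NP.ev_add, NP.ev_const, t1N, ev_lcN, h1, h2, h3, h4, ha, hb]
    push_cast
    ring

theorem ev_dTN (D : Cub ℤ) (n : ℕ) (k : Fin 6) :
    NP.ev x n (dTN D n k) = dT D (pt x n) k := by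
  have h1 : NP.ev x n (NP.v 1 n) = pt x n 1 := ev_vN x n 1
  have h2 : NP.ev x n (NP.v 2 n) = pt x n 2 := ev_vN x n 2
  have h3 : NP.ev x n (NP.v 3 n) = pt x n 3 := ev_vN x n 3
  have h4 : NP.ev x n (NP.v 4 n) = pt x n 4 := ev_vN x n 4
  have h5 : NP.ev x n (NP.v 5 n) = pt x n 5 := ev_vN x n 5
  have hv : (∑ j, ((D.a k 0 * D.a j 2 + D.a k 2 * D.a j 0 -
      2 * D.a k 1 * D.a j 1 - (D.b k 0 * D.b j 2 + D.b k 2 * D.b j 0 -
      2 * D.b k 1 * D.b j 1) : ℤ) : R) * pt x n j) =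
      (D.a k 0 : R) * va D (pt x n) 2 + va D (pt x n) 0 * (D.a k 2 : R) -
        2 * va D (pt x n) 1 * (D.a k 1 : R) - ((D.b k 0 : R) * vb D (pt x n) 2 +
        vb D (pt x n) 0 * (D.b k 2 : R) - 2 * vb D (pt x n) 1 * (D.b k 1 : R)) := by
    unfold va vb
    simp only [Fin.sum_univ_six]
    push_cast
    ring
  unfold dTN dT
  simp only [ev_sumN, List.map_cons, List.map_nil, List.sum_cons, List.sum_nil, NP.ev_mul,
    NP.ev_const, t2N, ev_lcN, ev_t4T, h1, h2, h3, h4, h5, hv]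
  push_cast
  ring

theorem dT_smul (D : Cub ℤ) (c : R) (v : Fin 6 → R) (k : Fin 6) :
    dT D (fun j => c * v j) k = c ^ 2 * dT D v k := by
  have ha : ∀ i, va D (fun j => c * v j) i = c * va D v i := fun i => by
    unfold va
    rw [Finset.mul_sum]
    exact Finset.sum_congr rfl fun j _ => by ring
  have hb : ∀ i, vb D (fun j => c * v j) i = c * vb D v i := fun i => by
    unfold vb
    rw [Finset.mul_sum]
    exact Finset.sum_congr rfl fun j _ => by ring
  unfold dT dT4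
  simp only [ha, hb]
  fin_cases k <;> simp <;> ring

end

/-- the test in one chart -/
def chkT (D : Cub ℤ) (p n : ℕ) (c : Fin 6 → NP n) : Bool :=
  NP.chk p n [(c 0, dTN D n 0), (c 1, dTN D n 1), (c 2, dTN D n 2), (c 3, dTN D n 3),
    (c 4, dTN D n 4), (c 5, dTN D n 5)]

/-- Smoothness of the cubic over `ℤ` from certificates. -/
theorem psmoothT_of_chk (D : Cub ℤ) (p : ℕ) (hp : p.Prime) (c : (n : ℕ) → Fin 6 → NP n)
    (h : ∀ n < 6, chkT D p n (c n) = true) :
    P28.PSmooth (map (Int.castRingHom ℂ) (FT D)) := by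
  classical
  refine psmoothT D p hp fun κ _ _ v hv => ?_
  by_contra hne
  have h1 : ∃ i, v i ≠ 0 := by
    by_contra hcon
    push Not at hcon
    exact hne (funext hcon)
  obtain ⟨n, hn, hmax⟩ := (Finset.univ.filter fun i : Fin 6 => v i ≠ 0).exists_max_image
    (fun i => i) (by
      obtain ⟨i, hi⟩ := h1
      exact ⟨i, by simp [hi]⟩)
  have hn' : v n ≠ 0 := (Finset.mem_filter.1 hn).2
  have hz : ∀ j : Fin 6, n < j → v j = 0 := by
    intro j hj
    by_contra hj0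
    exact absurd (hmax j (by simp [hj0])) (not_le.2 hj)
  set x : ℕ → κ := fun j => if hj : j < 6 then (v n)⁻¹ * v ⟨j, hj⟩ else 0 with hx
  have hpt : pt x n.val = fun j => (v n)⁻¹ * v j := by
    funext j
    unfold pt
    rcases lt_trichotomy j n with hj | hj | hj
    · rw [if_pos (show j.val < n.val from hj), hx]
      simp
    · subst hj
      rw [if_neg (lt_irrefl _), if_pos rfl, inv_mul_cancel₀ hn']
    · have : n.val < j.val := hj
      rw [if_neg (by omega : ¬ j.val < n.val), if_neg (by omega : ¬ j.val = n.val), hz j hj,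
        mul_zero]
  refine NP.cert (p := p) (h n.val n.isLt) x fun a ha => ?_
  have h3 : ∀ k, NP.ev x n.val (dTN D n.val k) = 0 := by
    intro k
    rw [ev_dTN, hpt, dT_smul, hv, mul_zero]
  simp only [List.mem_cons, List.not_mem_nil, or_false] at ha
  rcases ha with rfl | rfl | rfl | rfl | rfl | rfl <;> exact h3 _

/-! ### The twisted cubic -/

/-- the factors of the coefficients -/
def wI : Fin 6 → ℂ := ![1, 1, 1, Complex.I, Complex.I, 1]

/-- The coefficients of `X 3`, `X 4` are multiplied by `i`. -/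
def tw (D : Cub ℤ) : Cub ℂ where
  a := fun k i => wI k * (D.a k i : ℂ)
  b := fun k i => wI k * (D.b k i : ℂ)

/-- the substitution -/
def MI : Matrix (Fin 6) (Fin 6) ℂ := Matrix.diagonal ![1, 1, 1, -Complex.I, -Complex.I, 1]

/-- the inverse substitution -/
def NI : Matrix (Fin 6) (Fin 6) ℂ := Matrix.diagonal wI

theorem MI_mul : MI * NI = 1 := by
  rw [MI, NI, diagonal_mul_diagonal, ← diagonal_one]
  congr 1
  funext i
  fin_cases i <;> simp [wI]

theorem lsub_MI (i : Fin 6) : lsub MI i = C (![1, 1, 1, -Complex.I, -Complex.I, 1] i) * X i := by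
  unfold lsub MI
  rw [Finset.sum_eq_single i]
  · rw [diagonal_apply_eq]
  · intro j _ hj
    rw [diagonal_apply_ne _ hj.symm, C_0, zero_mul]
  · intro h
    exact absurd (Finset.mem_univ _) h

theorem bind_lin (c : Fin 6 → ℤ) :
    bind₁ (lsub MI) (lin fun k => wI k * (c k : ℂ)) = map (Int.castRingHom ℂ) (linZ c) := by
  rw [map_linZ]
  unfold lin
  rw [map_sum]
  refine Finset.sum_congr rfl fun k _ => ?_
  rw [map_mul, bind₁_C_right, bind₁_X_right, lsub_MI, ← mul_assoc, ← C_mul]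
  congr 2
  fin_cases k <;> simp [wI] <;> ring_nf <;> simp

theorem bind_tw (D : Cub ℤ) :
    bind₁ (lsub MI) (tw D).F = map (Int.castRingHom ℂ) (FT D) := by
  have h3 : lsub MI 3 = C (-Complex.I) * X 3 := lsub_MI 3
  have h4 : lsub MI 4 = C (-Complex.I) * X 4 := lsub_MI 4
  have h1 : lsub MI 1 = X 1 := by
    rw [lsub_MI]
    simp
  have h2 : lsub MI 2 = X 2 := by
    rw [lsub_MI]
    simp
  have h5 : lsub MI 5 = X 5 := by
    rw [lsub_MI]
    simp
  have hI : (C (-Complex.I) : MvPolynomial (Fin 6) ℂ) ^ 2 = -1 := by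
    rw [← C_pow, neg_sq, Complex.I_sq, C_neg, C_1]
  unfold FT Cub.F cubF Cub.A Cub.B
  simp only [map_add, map_sub, map_mul, map_pow, map_X, ← bind_lin, map_ofNat,
    Matrix.det_fin_two_of, Matrix.of_apply, Matrix.cons_val', Matrix.cons_val_zero,
    Matrix.cons_val_one, Matrix.cons_val_fin_one, bind₁_X_right, h1, h2, h3, h4, h5, tw]
  linear_combination (exp := 1)
    (-(bind₁ (lsub MI) (lin fun k => wI k * (D.b k 2 : ℂ))) * X 3 ^ 2 +
      2 * (bind₁ (lsub MI) (lin fun k => wI k * (D.b k 1 : ℂ))) * (X 3 * X 4) -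
      (bind₁ (lsub MI) (lin fun k => wI k * (D.b k 0 : ℂ))) * X 4 ^ 2) * hI

theorem to_tw (D : TK.Cub ℤ) : (GTEX.twX D).to = tw D.to := rfl

end Pool.Agent.GTEX.SmT

namespace Pool.Agent.GTEX

open Pool.Agent.GSE SmT

/-- **Smoothness of the twisted cubic from certificates.** -/
theorem psmooth_twX (D : TK.Cub ℤ) (p : ℕ) (hp : p.Prime) (c : (n : ℕ) → Fin 6 → NP n)
    (h : ∀ n < 6, chkT D.to p n (c n) = true) : P28.PSmooth (twX D).F := by
  rw [← TK.Cub.to_F, to_tw]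
  refine psmooth_of_lin MI NI MI_mul ?_
  rw [bind_tw]
  exact psmoothT_of_chk D.to p hp c h

/-- Irreducibility of a smooth cubic. -/
theorem irr_of_psmooth (X : TK.Cub ℂ) (h : P28.PSmooth X.F) : Irreducible X.F := by
  rw [← TK.Cub.to_F] at h ⊢
  exact psmooth_irr (GSX.Cub.F_hom _) (by norm_num) h

/-- The conditions on `A_0`, `B_0`. -/
theorem nondeg_twX (D : TK.Cub ℤ)
    (h1 : D.a 0 0 * D.a 0 2 - D.a 0 1 ^ 2 ≠ D.b 0 0 * D.b 0 2 - D.b 0 1 ^ 2)
    (h2 : D.a 0 ≠ 0) (h3 : D.b 0 ≠ 0) : (twX D).NonDeg where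
  det := by
    intro h
    apply h1
    simp only [twX, wt, Matrix.cons_val_zero, one_mul] at h
    exact_mod_cast h
  a0 := by
    intro h
    apply h2
    funext i
    have h4 := congrFun h i
    simp only [twX, wt, Matrix.cons_val_zero, one_mul, Pi.zero_apply] at h4
    exact_mod_cast h4
  b0 := by
    intro h
    apply h3
    funext i
    have h4 := congrFun h i
    simp only [twX, wt, Matrix.cons_val_zero, one_mul, Pi.zero_apply] at h4
    exact_mod_cast h4

end Pool.Agent.GTEX
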